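import Pool.Agent.Helper98.MH.Basic
import Pool.Agent.Helper21.MH.Bound

/-!
Project GH (MP_b8862a_ag): irreducible Lie algebras of matrices that are closed under the adjoint and
contain a Hermitian element with an eigenvalue of large multiplicity. Definitions.
-/

open Matrix Module

namespace GH

open MH

variable {n : Type*} [Fintype n] [DecidableEq n]

/-- `L` is a Lie algebra of matrices closed under the adjoint, and `h` is a Hermitian element of `L` with the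
spectral decomposition `E`. -/
structure Gr (L : Submodule ℂ (Matrix n n ℂ)) (h : Matrix n n ℂ) (E : ℝ → Matrix n n ℂ)
    (Λ : Finset ℝ) : Prop where
  spec : Spec h E Λ
  br : ∀ x ∈ L, ∀ y ∈ L, x * y - y * x ∈ L
  st : ∀ x ∈ L, xᴴ ∈ L
  mem : h ∈ L

/-- The space is the orthogonal sum of the pairwise non isomorphic irreducible `L`-modules `f i V`, and the
projections `f i` are in `L`. -/
structure Fam {ι : Type*} [Fintype ι] [DecidableEq ι] (L : Submodule ℂ (Matrix n n ℂ))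
    (f : ι → Matrix n n ℂ) : Prop where
  mul : ∀ i j, f i * f j = if i = j then f i else 0
  star : ∀ i, (f i)ᴴ = f i
  sum : ∑ i, f i = 1
  mem : ∀ i, f i ∈ L
  cen : ∀ i, ∀ x ∈ L, f i * x = x * f i
  com : ∀ T : Matrix n n ℂ, (∀ x ∈ L, T * x = x * T) → ∃ c : ι → ℂ, T = ∑ i, c i • f i

/-- On every `f i V` the elements of `L` that live on the kernel of `h` form a space of dimension at least four. -/
def Four {ι : Type*} [Fintype ι] [DecidableEq ι] (L : Submodule ℂ (Matrix n n ℂ)) (E : ℝ → Matrix n n ℂ)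
    (f : ι → Matrix n n ℂ) : Prop :=
  ∀ i, 4 ≤ finrank ℂ ((KK L E).map (LinearMap.mulLeft ℂ (f i)))

/-- `T` is an operator on the kernel of `h` that commutes with the elements of `L` that live there. -/
def Ck (L : Submodule ℂ (Matrix n n ℂ)) (E : ℝ → Matrix n n ℂ) (T : Matrix n n ℂ) : Prop :=
  E 0 * T = T ∧ T * E 0 = T ∧ ∀ z ∈ KK L E, T * z = z * T

/-- `T'` extends the operator `T` on the kernel of `h` and commutes with the elements of nonzero degree. -/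
def Ext (L : Submodule ℂ (Matrix n n ℂ)) (h : Matrix n n ℂ) (E : ℝ → Matrix n n ℂ)
    (T T' : Matrix n n ℂ) : Prop :=
  T' * E 0 = T ∧ E 0 * T' = T ∧ T' * h = h * T' ∧ ∀ ν : ℝ, ν ≠ 0 → ∀ x ∈ Ld L h ν, T' * x = x * T'

/-- For `x` of nonzero degree the part `x E₀ + E₀ x` is in `L`. -/
def Un (L : Submodule ℂ (Matrix n n ℂ)) (h : Matrix n n ℂ) (E : ℝ → Matrix n n ℂ) : Prop :=
  ∀ ν : ℝ, ν ≠ 0 → ∀ x ∈ Ld L h ν, x * E 0 + E 0 * x ∈ L

/-- The kernel of `h` and its images under the elements of nonzero degree span the space (dual form). -/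
def Sp0 (L : Submodule ℂ (Matrix n n ℂ)) (h : Matrix n n ℂ) (E : ℝ → Matrix n n ℂ) : Prop :=
  ∀ v : n → ℂ, E 0 *ᵥ v = 0 → (∀ ν : ℝ, ν ≠ 0 → ∀ x ∈ Ld L h ν, E 0 *ᵥ (x *ᵥ v) = 0) → v = 0

/-- `s` is diagonalisable. -/
def Dg (s : Matrix n n ℂ) : Prop :=
  ∃ (Λ : Finset ℂ) (F : ℂ → Matrix n n ℂ), (∀ μ ν, F μ * F ν = if μ = ν then F μ else 0) ∧
    ∑ μ ∈ Λ, F μ = 1 ∧ s = ∑ μ ∈ Λ, μ • F μ

/-- Up to a scalar `s` has rank `r` with `(r + 1) ^ 2` at most the size, or rank at most one. -/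
def Sm (s : Matrix n n ℂ) : Prop :=
  ∃ c : ℂ, (s - c • (1 : Matrix n n ℂ)).rank ≤ 1 ∨
    ((s - c • (1 : Matrix n n ℂ)).rank + 1) ^ 2 ≤ Fintype.card n

/-- `L` contains all matrices of trace zero, or, up to scalars, it consists of all skew matrices for a symmetric or
alternating nondegenerate form. -/
def Ty (L : Submodule ℂ (Matrix n n ℂ)) : Prop :=
  (∀ x : Matrix n n ℂ, x.trace = 0 → x ∈ L) ∨
    ∃ Q : Matrix n n ℂ, (Qᵀ = Q ∨ Qᵀ = -Q) ∧ IsUnit Q ∧ (∀ x, xᵀ * Q + Q * x = 0 → x ∈ L) ∧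
      ∀ x ∈ L, ∃ c : ℂ, xᵀ * Q + Q * x = c • Q

/-- The block `L` with the Hermitian element `h` is full, and there is room for the pair lemma. -/
structure Good (L : Submodule ℂ (Matrix n n ℂ)) (h : Matrix n n ℂ) (E : ℝ → Matrix n n ℂ)
    (Λ : Finset ℝ) : Prop where
  gr : Gr L h E Λ
  one : (1 : Matrix n n ℂ) ∈ L
  ty : Ty L
  nr : ∀ T : Matrix n n ℂ, T * h = h * T → (∀ ν : ℝ, ν ≠ 0 → ∀ x ∈ Ld L h ν, T * x = x * T) →
    ∃ c : ℂ, T = c • (1 : Matrix n n ℂ)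
  ne : E 0 ≠ 1
  five : (∀ x : Matrix n n ℂ, x.trace = 0 → x ∈ L) ∨ 5 ≤ Fintype.card n
  nu : finrank ℂ (Ld L h 0) + 3 ≤ 2 * finrank ℂ (KK L E)

end GH
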