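import Pool.Agent.Helper67.GH.Ext
import Pool.Agent.Helper74.GH.Sq
import Pool.Agent.Helper15.GH.LeThree
import Pool.Agent.Helper98.GH.Unit
import Pool.Agent.Helper56.GH.Span0

/-!
Project GH, block M6: operators on the kernel of `h` that commute with the elements of `L` that live there extend.
-/

set_option linter.unusedSectionVars false
set_option linter.unusedVariables false
set_option linter.unusedSimpArgs false

open Matrix Module

namespace GH

open MH

variable {n : Type*} [Fintype n] [DecidableEq n] {L : Submodule ℂ (Matrix n n ℂ)} {h : Matrix n n ℂ}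
  {E : ℝ → Matrix n n ℂ} {Λ : Finset ℝ} {ι : Type*} [Fintype ι] [DecidableEq ι] {f : ι → Matrix n n ℂ}

/-- a matrix that commutes with `h` commutes with the spectral projections -/
theorem comm_E43 (S : Spec h E Λ) {T : Matrix n n ℂ} (hT : T * h = h * T) (μ : ℝ) : T * E μ = E μ * T := by
  have h0 : ∀ ρ ρ' : ℝ, ρ ≠ ρ' → E ρ * T * E ρ' = 0 := by
    intro ρ ρ' hne
    have h1 := S.sandwich T ρ ρ'
    rw [← hT, sub_self, mul_zero, zero_mul] at h1
    have h2 : ((ρ : ℂ) - ρ') ≠ 0 := by
      intro h3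
      apply hne
      have : (ρ : ℂ) = ρ' := sub_eq_zero.mp h3
      exact_mod_cast this
    exact (smul_eq_zero.mp h1.symm).resolve_left h2
  apply S.ext
  intro ρ ρ'
  have e1 : E ρ * (T * E μ) * E ρ' = if μ = ρ' then E ρ * T * E ρ' else 0 := by
    rw [← mul_assoc, mul_assoc _ (E μ), S.mul]
    split_ifs with hc
    · rw [hc]
    · rw [mul_zero]
  have e2 : E ρ * (E μ * T) * E ρ' = if ρ = μ then E ρ * T * E ρ' else 0 := by
    rw [← mul_assoc, S.mul]
    split_ifs with hc
    · rfl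
    · rw [zero_mul, zero_mul]
  rw [e1, e2]
  by_cases h1 : μ = ρ'
  · by_cases h2 : ρ = μ
    · rw [if_pos h1, if_pos h2]
    · rw [if_pos h1, if_neg h2, h0 ρ ρ' (by rw [← h1]; exact h2)]
  · by_cases h2 : ρ = μ
    · rw [if_neg h1, if_pos h2, h0 ρ ρ' (by rw [h2]; exact h1)]
    · rw [if_neg h1, if_neg h2]

/-- a Hermitian matrix whose double bracket vanishes commutes -/
theorem herm43 {D C : Matrix n n ℂ} (hD : Dᴴ = D) (h2 : D * (D * C - C * D) = (D * C - C * D) * D) : D * C = C * D := by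
  set X := D * C - C * D with hX
  have h1 : (Xᴴ * X).trace = 0 := by
    have e1 : Xᴴ = Cᴴ * D - D * Cᴴ := by
      rw [hX, conjTranspose_sub, conjTranspose_mul, conjTranspose_mul, hD]
    rw [e1, sub_mul, trace_sub, mul_assoc, mul_assoc, Matrix.trace_mul_comm D, mul_assoc, h2, sub_self]
  have h3 : X = 0 := by
    apply nrm_eq_zero
    unfold nrm hs
    rw [h1, Complex.zero_re]
  exact sub_eq_zero.mp h3

/-- the algebra generated by the elements living on the kernel -/
abbrev A43 (L : Submodule ℂ (Matrix n n ℂ)) (E : ℝ → Matrix n n ℂ) : Subalgebra ℂ (Matrix n n ℂ) :=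
  Algebra.adjoin ℂ (KK L E : Set (Matrix n n ℂ))

theorem z_mem43 {z : Matrix n n ℂ} (hz : z ∈ KK L E) : z ∈ A43 L E := Algebra.subset_adjoin hz

theorem star43 (G : Gr L h E Λ) {w : Matrix n n ℂ} (hw : w ∈ A43 L E) : wᴴ ∈ A43 L E := by
  induction hw using Algebra.adjoin_induction with
  | mem z hz => exact z_mem43 (G.KK_star hz)
  | algebraMap c =>
    rw [Algebra.algebraMap_eq_smul_one, conjTranspose_smul, conjTranspose_one]
    exact (A43 L E).smul_mem (A43 L E).one_mem _
  | add a b _ _ ha hb => rw [conjTranspose_add]; exact (A43 L E).add_mem ha hb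
  | mul a b _ _ ha hb => rw [conjTranspose_mul]; exact (A43 L E).mul_mem hb ha

/-- what commutes with `KK` commutes with the algebra -/
theorem comA43 {T w : Matrix n n ℂ} (hT : ∀ z ∈ KK L E, T * z = z * T) (hw : w ∈ A43 L E) : T * w = w * T := by
  induction hw using Algebra.adjoin_induction with
  | mem z hz => exact hT z hz
  | algebraMap c => exact (Algebra.commutes c T).symm
  | add a b _ _ ha hb => rw [mul_add, add_mul, ha, hb]
  | mul a b _ _ ha hb => rw [← mul_assoc, ha, mul_assoc, hb, mul_assoc]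

theorem brA43 (G : Gr L h E Λ) {y w : Matrix n n ℂ} (hy : y ∈ Ld L h 0) (hw : w ∈ A43 L E) :
    y * w - w * y ∈ A43 L E := by
  induction hw using Algebra.adjoin_induction with
  | mem z hz => exact z_mem43 (G.KK_br hz hy)
  | algebraMap c => rw [Algebra.commutes c y, sub_self]; exact (A43 L E).zero_mem
  | add a b _ _ ha hb =>
    have e : y * (a + b) - (a + b) * y = (y * a - a * y) + (y * b - b * y) := by noncomm_ring
    rw [e]; exact (A43 L E).add_mem ha hb
  | mul a b ha' hb' ha hb =>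
    have e : y * (a * b) - a * b * y = (y * a - a * y) * b + a * (y * b - b * y) := by noncomm_ring
    rw [e]; exact (A43 L E).add_mem ((A43 L E).mul_mem ha hb') ((A43 L E).mul_mem ha' hb)

/-- an operator on the kernel that commutes with the products and with degree zero is a combination of the `f i E₀` -/
theorem ext_com43 (G : Gr L h E Λ) (F : Fam L f) (U : Un L h E) (S0 : Sp0 L h E) {T : Matrix n n ℂ} (h1 : E 0 * T = T)
    (h2 : T * E 0 = T) (hC : ∀ ν : ℝ, ν ≠ 0 → ∀ x ∈ Ld L h ν, ∀ y ∈ Ld L h (-ν),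
      T * (E 0 * (y * x) * E 0) = E 0 * (y * x) * E 0 * T) (h0 : ∀ y ∈ Ld L h 0, T * y = y * T) :
    ∃ c : ι → ℂ, T = ∑ i, c i • (f i * E 0) := by
  obtain ⟨T', hT'⟩ := G.ext U S0 h1 h2 hC
  have key : ∀ y ∈ Ld L h 0, T' * y = y * T' := by
    intro y hy
    have hhy : h * y = y * h := by
      have := hy.2
      rw [Complex.ofReal_zero, zero_smul, sub_eq_zero] at this
      exact this
    have hE := G.E0_comm hy
    have e1 : Ext L h E 0 (y * T' - T' * y) := by
      refine ⟨?_, ?_, ?_, ?_⟩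
      · rw [sub_mul, mul_assoc, hT'.1, mul_assoc, ← hE, ← mul_assoc, hT'.1, h0 y hy, sub_self]
      · rw [mul_sub, ← mul_assoc, hE, mul_assoc, hT'.2.1, ← mul_assoc, hT'.2.1, h0 y hy, sub_self]
      · rw [sub_mul, mul_sub, mul_assoc, hT'.2.2.1, ← mul_assoc, ← hhy, mul_assoc, mul_assoc, ← hhy, ← mul_assoc T',
          hT'.2.2.1]
        simp only [mul_assoc]
      · intro ν hν x hx
        have h3 := hT'.2.2.2 ν hν x hx
        have h4 : T' * (y * x - x * y) = (y * x - x * y) * T' := by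
          have := G.br_Ld hy hx
          rw [zero_add] at this
          exact hT'.2.2.2 ν hν _ this
        have e2 : (y * T' - T' * y) * x - x * (y * T' - T' * y) =
            y * (T' * x) - T' * (y * x) - x * y * T' + x * T' * y := by noncomm_ring
        have e3 : (y * T' - T' * y) * x - x * (y * T' - T' * y) = 0 := by
          rw [e2, h3, ← h3]
          have e4 : y * (x * T') - T' * (y * x) - x * y * T' + T' * x * y =
            (y * x - x * y) * T' - T' * (y * x - x * y) := by noncomm_ring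
          rw [← h3] at *
          rw [h3] at *
          rw [e4, h4, sub_self]
        exact sub_eq_zero.mp e3
    have e5 : Ext L h E 0 0 := ⟨by simp, by simp, by simp, by intro ν _ x _; simp⟩
    have := G.ext_uniq S0 e1 e5
    exact (sub_eq_zero.mp this).symm
  obtain ⟨c, hc⟩ := F.com T' (fun x hx => G.induct (p := fun x => T' * x = x * T') key hT'.2.2.2
    (by simp) (by intro a b ha hb; rw [mul_add, add_mul, ha, hb]) hx)
  refine ⟨c, ?_⟩
  rw [← hT'.1, hc, Finset.sum_mul]
  simp only [smul_mul_assoc]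

theorem Gr.mach (G : Gr L h E Λ) (F : Fam L f) (h4 : Four L E f) {T : Matrix n n ℂ} (hT : Ck L E T) :
    ∃ T', Ext L h E T T' := by
  classical
  have U : Un L h E := G.unit F h4
  have S0 : Sp0 L h E := G.span0 F h4 U
  have hE := G.E0_E0
  -- the squares
  set J : Set (Matrix n n ℂ) := {s | ∃ z ∈ KK L E, ∃ w ∈ A43 L E, s = z * z * w - w * (z * z)} with hJ
  set WJ : Submodule ℂ (n → ℂ) := Submodule.span ℂ {v | ∃ s ∈ J, ∃ u, v = s *ᵥ u} with hWJ
  have hsub : ∀ s ∈ J, ∀ u, s *ᵥ u ∈ WJ := fun s hs u => Submodule.subset_span ⟨s, hs, u, rfl⟩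
  -- polarised
  have hpol : ∀ z₁ ∈ KK L E, ∀ z₂ ∈ KK L E, ∀ w ∈ A43 L E, ∃ s₁ ∈ J, ∃ s₂ ∈ J, ∃ s₃ ∈ J,
      (z₁ * z₂ + z₂ * z₁) * w - w * (z₁ * z₂ + z₂ * z₁) = s₁ - s₂ - s₃ := by
    intro z₁ h₁ z₂ h₂ w hw
    refine ⟨_, ⟨z₁ + z₂, (KK L E).add_mem h₁ h₂, w, hw, rfl⟩, _, ⟨z₁, h₁, w, hw, rfl⟩, _, ⟨z₂, h₂, w, hw, rfl⟩, ?_⟩
    noncomm_ring
  have hstab : ∀ x : Matrix n n ℂ, (∀ s ∈ J, ∀ u, x *ᵥ (s *ᵥ u) ∈ WJ) → ∀ v ∈ WJ, x *ᵥ v ∈ WJ := by
    intro x hx v hv
    induction hv using Submodule.span_induction with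
    | mem v hv => obtain ⟨s, hs, u, rfl⟩ := hv; exact hx s hs u
    | zero => rw [mulVec_zero]; exact WJ.zero_mem
    | add a b _ _ ha hb => rw [mulVec_add]; exact WJ.add_mem ha hb
    | smul c a _ ha => rw [mulVec_smul]; exact WJ.smul_mem c ha
  have hA : ∀ a ∈ A43 L E, ∀ v ∈ WJ, a *ᵥ v ∈ WJ := by
    intro a ha
    apply hstab
    rintro _ ⟨z, hz, w, hw, rfl⟩ u
    have e : a * (z * z * w - w * (z * z)) = (z * z * (a * w) - a * w * (z * z)) - (z * z * a - a * (z * z)) * w := by
      noncomm_ring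
    rw [mulVec_mulVec, e, sub_mulVec, ← mulVec_mulVec]
    exact WJ.sub_mem (hsub _ ⟨z, hz, a * w, (A43 L E).mul_mem ha hw, rfl⟩ _) (hsub _ ⟨z, hz, a, ha, rfl⟩ _)
  have h0 : ∀ y ∈ Ld L h 0, ∀ v ∈ WJ, y *ᵥ v ∈ WJ := by
    intro y hy
    apply hstab
    rintro _ ⟨z, hz, w, hw, rfl⟩ u
    have hz' : y * z - z * y ∈ KK L E := G.KK_br hz hy
    obtain ⟨s₁, hs₁, s₂, hs₂, s₃, hs₃, hs⟩ := hpol _ hz' z hz w hw
    have e : y * (z * z * w - w * (z * z)) =
        (((y * z - z * y) * z + z * (y * z - z * y)) * w - w * ((y * z - z * y) * z + z * (y * z - z * y))) +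
        (z * z * (y * w - w * y) - (y * w - w * y) * (z * z)) + (z * z * w - w * (z * z)) * y := by noncomm_ring
    rw [mulVec_mulVec, e, hs, add_mulVec, add_mulVec, sub_mulVec, sub_mulVec, ← mulVec_mulVec u (z * z * w - w * (z * z)) y]
    exact WJ.add_mem (WJ.add_mem (WJ.sub_mem (WJ.sub_mem (hsub _ hs₁ _) (hsub _ hs₂ _)) (hsub _ hs₃ _))
      (hsub _ ⟨z, hz, _, brA43 G hy hw, rfl⟩ _)) (hsub _ ⟨z, hz, w, hw, rfl⟩ _)
  obtain ⟨q, hqq, hqs, hqm, hqc⟩ := proj WJ
  have hqA : ∀ a ∈ A43 L E, q * a = a * q := fun a ha => hqc a (hA a ha) (hA _ (star43 G ha))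
  have hq0 : ∀ y ∈ Ld L h 0, q * y = y * q := by
    intro y hy
    have := G.star_Ld hy
    rw [neg_zero] at this
    exact hqc y (h0 y hy) (h0 _ this)
  -- a matrix that is the identity on `WJ`
  have hqid : ∀ x : Matrix n n ℂ, (∀ s ∈ J, x * s = 0) → x * q = 0 := by
    intro x hx
    have h1 : ∀ v ∈ WJ, x *ᵥ v = 0 := by
      intro v hv
      induction hv using Submodule.span_induction with
      | mem v hv => obtain ⟨s, hs, u, rfl⟩ := hv; rw [mulVec_mulVec, hx s hs, zero_mulVec]
      | zero => rw [mulVec_zero]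
      | add a b _ _ ha hb => rw [mulVec_add, ha, hb, add_zero]
      | smul c a _ ha => rw [mulVec_smul, ha, smul_zero]
    apply Matrix.ext_of_mulVec_single
    intro i
    rw [zero_mulVec, ← mulVec_mulVec]
    apply h1
    rw [hqm, mulVec_mulVec, hqq]
  have hEA : ∀ w ∈ A43 L E, E 0 * w = w * E 0 :=
    fun w hw => comA43 (fun z hz => by rw [G.KK_left hz, G.KK_right hz]) hw
  have hEJ : ∀ s ∈ J, E 0 * s = s := by
    rintro _ ⟨z, hz, w, hw, rfl⟩
    rw [mul_sub, ← mul_assoc, ← mul_assoc, G.KK_left hz, ← mul_assoc, hEA w hw, mul_assoc w, ← mul_assoc (E 0), G.KK_left hz]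
  have hEq : E 0 * q = q := by
    have := hqid (1 - E 0) (fun s hs => by rw [sub_mul, one_mul, hEJ s hs, sub_self])
    rw [sub_mul, one_mul, sub_eq_zero] at this
    exact this.symm
  have hqE : q * E 0 = q := by
    have := congrArg Matrix.conjTranspose hEq
    rw [conjTranspose_mul, hqs, G.spec.star] at this
    exact this
  have hstarJ : ∀ s ∈ J, ∃ s' ∈ J, sᴴ = -s' := by
    rintro _ ⟨z, hz, w, hw, rfl⟩
    refine ⟨_, ⟨zᴴ, G.KK_star hz, wᴴ, star43 G hw, rfl⟩, ?_⟩
    simp only [conjTranspose_sub, conjTranspose_mul, neg_sub]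
  -- the elements R
  have hR : ∀ {T : Matrix n n ℂ}, Ck L E T → ∀ ν : ℝ, ν ≠ 0 → ∀ x ∈ Ld L h ν, ∀ y ∈ Ld L h (-ν), ∀ z ∈ KK L E,
      z * z * (T * (E 0 * (y * x) * E 0) - E 0 * (y * x) * E 0 * T) =
        (T * (E 0 * (y * x) * E 0) - E 0 * (y * x) * E 0 * T) * (z * z) := by
    intro T hT ν hν x hx y hy z hz
    have := G.sq U hT hν hx hy hz (A43 L E).one_mem (A43 L E).one_mem
    rwa [one_mul, mul_one] at this
  have hRJ : ∀ {T : Matrix n n ℂ}, Ck L E T → ∀ ν : ℝ, ν ≠ 0 → ∀ x ∈ Ld L h ν, ∀ y ∈ Ld L h (-ν),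
      (T * (E 0 * (y * x) * E 0) - E 0 * (y * x) * E 0 * T) * q = 0 ∧
        q * (T * (E 0 * (y * x) * E 0) - E 0 * (y * x) * E 0 * T) = 0 := by
    intro T hT ν hν x hx y hy
    set R := T * (E 0 * (y * x) * E 0) - E 0 * (y * x) * E 0 * T with hRd
    have k1 : ∀ s ∈ J, R * s = 0 := by
      rintro _ ⟨z, hz, w, hw, rfl⟩
      have e1 := hR hT ν hν x hx y hy z hz
      have e2 := G.sq U hT hν hx hy hz (A43 L E).one_mem hw
      rw [← hRd] at e1 e2
      rw [one_mul] at e2
      rw [mul_sub, ← mul_assoc, ← e1, mul_assoc (z * z) R w, e2, mul_assoc, sub_self]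
    have k2 : ∀ s ∈ J, s * R = 0 := by
      rintro _ ⟨z, hz, w, hw, rfl⟩
      have e1 := hR hT ν hν x hx y hy z hz
      have e2 := G.sq U hT hν hx hy hz hw (A43 L E).one_mem
      rw [← hRd] at e1 e2
      rw [mul_one] at e2
      rw [sub_mul, mul_assoc (z * z), e2, mul_assoc w (z * z), e1, mul_assoc w R, sub_self]
    refine ⟨hqid R k1, ?_⟩
    have k3 := hqid Rᴴ (fun s hs => by
      obtain ⟨s', hs', hs''⟩ := hstarJ s hs
      have := congrArg Matrix.conjTranspose (k2 s' hs')
      rw [conjTranspose_mul, conjTranspose_zero] at this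
      have e : s = -s'ᴴ := by rw [← conjTranspose_neg, ← hs'', conjTranspose_conjTranspose]
      rw [e, mul_neg, this, neg_zero])
    have k4 := congrArg Matrix.conjTranspose k3
    rwa [conjTranspose_mul, conjTranspose_conjTranspose, hqs, conjTranspose_zero] at k4
  have hqCk : Ck L E q := ⟨hEq, hqE, fun z hz => hqA z (z_mem43 hz)⟩
  have hqC : ∀ ν : ℝ, ν ≠ 0 → ∀ x ∈ Ld L h ν, ∀ y ∈ Ld L h (-ν),
      q * (E 0 * (y * x) * E 0) = E 0 * (y * x) * E 0 * q := by
    intro ν hν x hx y hy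
    obtain ⟨k1, k2⟩ := hRJ hqCk ν hν x hx y hy
    generalize E 0 * (y * x) * E 0 = C at k1 k2 ⊢
    have e1 : (q * C - C * q) * q = q * C * q - C * q := by rw [sub_mul, mul_assoc C, hqq]
    have e2 : q * (q * C - C * q) = q * C - q * C * q := by rw [mul_sub, ← mul_assoc, hqq, mul_assoc]
    rw [e1] at k1
    rw [e2] at k2
    rw [sub_eq_zero.mp k2, sub_eq_zero.mp k1]
  obtain ⟨c, hc⟩ := ext_com43 G F U S0 hEq hqE hqC hq0
  have hfE : ∀ i, f i * E 0 = E 0 * f i := fun i => comm_E43 G.spec (F.cen i h G.mem) 0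
  have hfE0 : ∀ i, f i * E 0 ≠ 0 := by
    intro i h0
    have h5 : (KK L E).map (LinearMap.mulLeft ℂ (f i)) = ⊥ := by
      rw [eq_bot_iff]
      rintro _ ⟨z, hz, rfl⟩
      rw [Submodule.mem_bot]
      show f i * z = 0
      rw [← G.KK_left hz, ← mul_assoc, h0, zero_mul]
    have h6 := h4 i
    rw [h5, finrank_bot] at h6
    omega
  have hfq : ∀ i, f i * q = c i • (f i * E 0) := by
    intro i
    rw [hc, Finset.mul_sum, Finset.sum_eq_single i]
    · rw [mul_smul_comm, ← mul_assoc, F.mul, if_pos rfl]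
    · intro j _ hj
      rw [mul_smul_comm, ← mul_assoc, F.mul, if_neg (Ne.symm hj), zero_mul, smul_zero]
    · intro h'; exact absurd (Finset.mem_univ i) h'
  have hc01 : ∀ i, c i = 0 ∨ c i = 1 := by
    intro i
    have h5 : f i * (q * q) = (c i * c i) • (f i * E 0) := by
      rw [← mul_assoc, hfq, smul_mul_assoc, mul_assoc, hEq, hfq, smul_smul]
    rw [hqq, hfq] at h5
    have h6 : (c i * (1 - c i)) • (f i * E 0) = 0 := by
      rw [mul_sub, mul_one, sub_smul, ← h5, sub_self]
    rcases smul_eq_zero.mp h6 with h7 | h7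
    · rcases mul_eq_zero.mp h7 with h8 | h8
      · exact Or.inl h8
      · exact Or.inr (sub_eq_zero.mp h8).symm
    · exact absurd h7 (hfE0 i)
  by_cases hall : ∀ i, c i = 1
  · have hqE0 : q = E 0 := by
      rw [hc]
      simp only [hall, one_smul]
      rw [← Finset.sum_mul, F.sum, one_mul]
    apply G.ext U S0 hT.1 hT.2.1
    intro ν hν x hx y hy
    obtain ⟨_, k2⟩ := hRJ hT ν hν x hx y hy
    rw [hqE0, mul_sub, ← mul_assoc, hT.1] at k2
    have e1 : E 0 * (E 0 * (y * x) * E 0 * T) = E 0 * (y * x) * E 0 * T := by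
      rw [← mul_assoc, ← mul_assoc, ← mul_assoc, hE]
    rw [e1] at k2
    exact sub_eq_zero.mp k2
  · exfalso
    push Not at hall
    obtain ⟨i, hi⟩ := hall
    have hi0 : c i = 0 := (hc01 i).resolve_right hi
    have hfq0 : f i * q = 0 := by rw [hfq, hi0, zero_smul]
    have hqJ : ∀ s ∈ J, q * s = s := by
      intro s hs
      apply Matrix.ext_of_mulVec_single
      intro j
      rw [← mulVec_mulVec]
      exact (hqm _).mp (hsub s hs _)
    have hfJ : ∀ s ∈ J, f i * s = 0 := by
      intro s hs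
      rw [← hqJ s hs, ← mul_assoc, hfq0, zero_mul]
    have hfA : ∀ w ∈ A43 L E, f i * w = w * f i := fun w hw => comA43 (fun z hz => F.cen i z hz.1) hw
    have hff : f i * f i = f i := by rw [F.mul, if_pos rfl]
    have hD : ∀ z ∈ KK L E, zᴴ = z → ∃ t : ℂ, f i * (z * z) = t • (f i * E 0) := by
      intro z hz hzs
      set D := f i * (z * z) with hDd
      have hzz : z * z ∈ A43 L E := (A43 L E).mul_mem (z_mem43 hz) (z_mem43 hz)
      have hDs : Dᴴ = D := by
        rw [hDd, conjTranspose_mul, conjTranspose_mul, hzs, F.star, hfA _ hzz]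
      have hfC : ∀ ν : ℝ, ∀ x ∈ Ld L h ν, ∀ y ∈ Ld L h (-ν),
          f i * (E 0 * (y * x) * E 0) = E 0 * (y * x) * E 0 * f i := by
        intro ν x hx y hy
        have e1 := F.cen i x hx.1
        have e2 := F.cen i y hy.1
        have e3 := hfE i
        calc f i * (E 0 * (y * x) * E 0) = (f i * E 0) * (y * x) * E 0 := by simp only [mul_assoc]
          _ = E 0 * ((f i * y) * x) * E 0 := by rw [e3]; simp only [mul_assoc]
          _ = E 0 * (y * (f i * x)) * E 0 := by rw [e2]; simp only [mul_assoc]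
          _ = E 0 * (y * x) * (f i * E 0) := by rw [e1]; simp only [mul_assoc]
          _ = E 0 * (y * x) * E 0 * f i := by rw [e3]; simp only [mul_assoc]
      have hDCk : Ck L E D := by
        refine ⟨?_, ?_, ?_⟩
        · rw [hDd, ← mul_assoc, ← hfE, mul_assoc, ← mul_assoc (E 0), G.KK_left hz]
        · rw [hDd, mul_assoc, mul_assoc, G.KK_right hz]
        · intro z' hz'
          have e1 := hfJ _ ⟨z, hz, z', z_mem43 hz', rfl⟩
          rw [mul_sub, sub_eq_zero] at e1
          rw [hDd, mul_assoc, e1, ← mul_assoc, hfA z' (z_mem43 hz'), mul_assoc]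
      have hDC : ∀ ν : ℝ, ν ≠ 0 → ∀ x ∈ Ld L h ν, ∀ y ∈ Ld L h (-ν),
          D * (E 0 * (y * x) * E 0) = E 0 * (y * x) * E 0 * D := by
        intro ν hν x hx y hy
        apply herm43 hDs
        have e1 := hR hDCk ν hν x hx y hy z hz
        have e2 := hfC ν x hx y hy
        generalize E 0 * (y * x) * E 0 = C at e1 e2 ⊢
        have hfD : f i * D = D := by rw [hDd, ← mul_assoc, hff]
        have hDf : D * f i = D := by rw [hDd, mul_assoc, ← hfA _ hzz, ← mul_assoc, hff]
        have e3 : f i * (D * C - C * D) = D * C - C * D := by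
          rw [mul_sub, ← mul_assoc, hfD, ← mul_assoc, e2, mul_assoc C, hfD]
        have e4 : (D * C - C * D) * f i = D * C - C * D := by
          rw [sub_mul, mul_assoc, ← e2, ← mul_assoc, hDf, mul_assoc C, hDf]
        calc D * (D * C - C * D) = f i * (z * z * (D * C - C * D)) := by rw [hDd, mul_assoc]
          _ = f i * (D * C - C * D) * (z * z) := by rw [e1, ← mul_assoc]
          _ = (D * C - C * D) * f i * (z * z) := by rw [e3, e4]
          _ = (D * C - C * D) * D := by rw [mul_assoc]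
      have hD0 : ∀ y ∈ Ld L h 0, D * y = y * D := by
        intro y hy
        apply herm43 hDs
        have hz' : y * z - z * y ∈ KK L E := G.KK_br hz hy
        obtain ⟨s₁, hs₁, s₂, hs₂, s₃, hs₃, hs⟩ := hpol _ hz' z hz (z * z) hzz
        have e1 : f i * (((y * z - z * y) * z + z * (y * z - z * y)) * (z * z) -
            z * z * ((y * z - z * y) * z + z * (y * z - z * y))) = 0 := by
          rw [hs, mul_sub, mul_sub, hfJ _ hs₁, hfJ _ hs₂, hfJ _ hs₃]; simp
        have e2 := F.cen i y hy.1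
        have e3 := F.cen i z hz.1
        have e4 : D * y - y * D = -(f i * ((y * z - z * y) * z + z * (y * z - z * y))) := by
          rw [hDd]
          have : y * (f i * (z * z)) = f i * (y * (z * z)) := by rw [← mul_assoc, ← e2, mul_assoc]
          rw [this]
          noncomm_ring
        rw [e4]
        have e5 : f i * ((y * z - z * y) * z + z * (y * z - z * y)) = ((y * z - z * y) * z + z * (y * z - z * y)) * f i := by
          have a1 : f i * (y * z - z * y) = (y * z - z * y) * f i := F.cen i _ hz'.1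
          rw [mul_add, add_mul, ← mul_assoc, a1, mul_assoc, e3, mul_assoc, ← mul_assoc (f i) z, e3, mul_assoc z (f i), a1]
          simp only [mul_assoc]
        set X := (y * z - z * y) * z + z * (y * z - z * y) with hX
        have e6 : D * -(f i * X) = -(f i * (z * z * X)) := by
          rw [hDd, mul_neg, hfA _ hzz, mul_assoc, ← mul_assoc (f i) (f i), hff, ← mul_assoc, ← hfA _ hzz, mul_assoc]
        have e7 : -(f i * X) * D = -(f i * (X * (z * z))) := by
          rw [hDd, neg_mul, e5, mul_assoc, ← mul_assoc (f i) (f i), hff, ← mul_assoc, ← e5, mul_assoc]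
        rw [e6, e7]
        rw [mul_sub, sub_eq_zero] at e1
        rw [e1]
      obtain ⟨t, ht⟩ := ext_com43 G F U S0 hDCk.1 hDCk.2.1 hDC hD0
      refine ⟨t i, ?_⟩
      have e1 : D = f i * D := by
        rw [hDd, ← mul_assoc (f i) (f i), hff]
      rw [e1, ht, Finset.mul_sum, Finset.sum_eq_single i]
      · rw [mul_smul_comm, ← mul_assoc, hff]
      · intro j _ hj
        rw [mul_smul_comm, ← mul_assoc, F.mul, if_neg (Ne.symm hj), zero_mul, smul_zero]
      · intro h'; exact absurd (Finset.mem_univ i) h'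
    have h3 := le_three (k := (KK L E).map (LinearMap.mulLeft ℂ (f i))) (p := f i * E 0) (by
        rintro _ ⟨x, hx, rfl⟩ _ ⟨y, hy, rfl⟩
        refine ⟨x * y - y * x, G.KK_br hy (G.KK_Ld hx), ?_⟩
        have e1 := F.cen i x hx.1
        have e2 := F.cen i y hy.1
        show f i * (x * y - y * x) = f i * x * (f i * y) - f i * y * (f i * x)
        rw [mul_assoc (f i) x, ← mul_assoc x (f i), ← e1, mul_assoc (f i) x y, ← mul_assoc (f i) (f i), hff,
          mul_assoc (f i) y, ← mul_assoc y (f i), ← e2, mul_assoc (f i) y x, ← mul_assoc (f i) (f i), hff, mul_sub]) (by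
        rintro _ ⟨x, hx, rfl⟩
        refine ⟨xᴴ, G.KK_star hx, ?_⟩
        show f i * xᴴ = (f i * x)ᴴ
        rw [conjTranspose_mul, F.star, F.cen i _ (G.st x hx.1)]) (by
        rintro _ ⟨x, hx, rfl⟩
        show f i * E 0 * (f i * x) = f i * x
        rw [hfE, mul_assoc, ← mul_assoc (f i) (f i), hff, ← mul_assoc, ← hfE, mul_assoc, G.KK_left hx]) (by
        rintro _ ⟨x, hx, rfl⟩
        show f i * x * (f i * E 0) = f i * x
        rw [mul_assoc, ← mul_assoc x, ← F.cen i x hx.1, mul_assoc (f i) x, G.KK_right hx, ← mul_assoc, hff]) (by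
        rintro _ ⟨x, hx, rfl⟩ hs
        change (f i * x)ᴴ = f i * x at hs
        show ∃ t : ℂ, f i * x * (f i * x) = t • (f i * E 0)
        have hs' : f i * xᴴ = f i * x := by
          rw [← hs, conjTranspose_mul, F.star, F.cen i _ (G.st x hx.1)]
        set z := (2 : ℂ)⁻¹ • (x + xᴴ) with hz
        have hzK : z ∈ KK L E := (KK L E).smul_mem _ ((KK L E).add_mem hx (G.KK_star hx))
        have hzs : zᴴ = z := by
          rw [hz, conjTranspose_smul, conjTranspose_add, conjTranspose_conjTranspose, add_comm xᴴ x]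
          congr 1
          rw [star_inv₀]
          congr 1
          exact Complex.conj_ofNat 2
        have hfz : f i * z = f i * x := by
          rw [hz, mul_smul_comm, mul_add, hs', ← two_smul ℂ (f i * x), smul_smul]
          norm_num
        obtain ⟨t, ht⟩ := hD z hzK hzs
        refine ⟨t, ?_⟩
        rw [← ht, ← hfz, mul_assoc, ← mul_assoc z (f i), ← F.cen i z hzK.1, mul_assoc (f i) z z, ← mul_assoc (f i) (f i), hff])
    have := h4 i
    omega

end GH
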