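import Pool.Agent.Helper43.GH.TC2
import Pool.Agent.Helper2.MON.W1

/-!
Project GH (MP_b8862a_ag), type IV: the numbers of a Hodge-Tate decomposition and of a conjugate of the Hodge decomposition.
-/

set_option linter.unusedSectionVars false
set_option linter.unusedVariables false

open Matrix

namespace MH

variable {n : Type*} [Fintype n] [DecidableEq n]
variable {w : ℤ} {Q : Matrix n n ℚ} {S : Finset ℤ} {P : ℤ → Matrix n n ℂ} {Γ : Subgroup (GL n ℂ)}

/-! ### the two tori -/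

theorem IsHTw.dc43 {S' : Finset ℤ} {R : ℤ → Matrix n n ℂ} (hR : IsHTw w Q S' Γ R) : Dc43 w (toC Q) S' R :=
  ⟨hR.mul, hR.supp, hR.sum, hR.orth⟩

theorem map_sumσ43 {ι : Type*} (s : Finset ι) (f : ι → Matrix n n ℂ) (σ : ℂ ≃+* ℂ) :
    (∑ i ∈ s, f i).map σ = ∑ i ∈ s, (f i).map σ := by
  ext i j
  rw [Matrix.map_apply, Matrix.sum_apply, Matrix.sum_apply, map_sum]
  rfl

theorem map_oneσ43 (σ : ℂ ≃+* ℂ) : (1 : Matrix n n ℂ).map σ = 1 := Matrix.map_one _ (map_zero _) (map_one _)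

theorem map_zeroσ43 (σ : ℂ ≃+* ℂ) : (0 : Matrix n n ℂ).map σ = 0 := Matrix.map_zero _ (map_zero _)

theorem IsHW.dc43 (H : IsHW w Q S P) (σ : ℂ ≃+* ℂ) : Dc43 w (toC Q) S (fun p => (P p).map σ) where
  mul p q := by
    rw [← map_mulσ, H.mul]
    split_ifs
    · rfl
    · exact map_zeroσ43 σ
  supp p hp := by
    simp only [H.supp p hp]
    exact map_zeroσ43 σ
  sum := by rw [← map_sumσ43, H.sum, map_oneσ43]
  orth p q hpq := by
    have h1 : ((P p)ᵀ * toC Q * P q).map σ = (0 : Matrix n n ℂ).map σ := by rw [H.orth p q hpq]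
    rw [map_mulσ, map_mulσ, map_zeroσ43, toC_aut] at h1
    exact h1

/-- the conjugates of the Hodge cocharacter -/
theorem IsHW.exists_ctσ43 (H : IsHW w Q S P) (σ : ℂ ≃+* ℂ) {z : ℂ} (hz : z ≠ 0) :
    ∃ g : GL n ℂ, g ∈ MT S P ∧ (g : Matrix n n ℂ) = ct43 S (fun p => (P p).map σ) z ∧
      ((g⁻¹ : GL n ℂ) : Matrix n n ℂ) = ct43 S (fun p => (P p).map σ) z⁻¹ := by
  have hz' : σ.symm z ≠ 0 := by
    intro h
    apply hz
    have h1 := congrArg σ h
    rwa [RingEquiv.apply_symm_apply, map_zero] at h1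
  have e0 : ∀ y : ℂ, y ≠ 0 → (cochar S P (σ.symm y)).map σ = ct43 S (fun p => (P p).map σ) y := by
    intro y hy
    unfold cochar ct43
    rw [map_sumσ43]
    refine Finset.sum_congr rfl fun p _ => ?_
    rw [map_smulσ, map_zpow₀, RingEquiv.apply_symm_apply]
  refine ⟨⟨ct43 S (fun p => (P p).map σ) z, ct43 S (fun p => (P p).map σ) z⁻¹, (H.dc43 σ).ct_inv hz, ?_⟩, ?_, rfl, rfl⟩
  · have h1 := (H.dc43 σ).ct_inv (inv_ne_zero hz)
    rwa [inv_inv] at h1
  · exact MT_aut σ (e0 z hz).symm (H.coch_mem (σ.symm z) hz')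

/-! ### commuting with the endomorphisms -/

theorem EC_Pσ43 {x : Matrix n n ℂ} (hx : x ∈ EC P) (σ : ℂ ≃+* ℂ) (p : ℤ) : x * (P p).map σ = (P p).map σ * x := by
  unfold EC at hx
  induction hx using Submodule.span_induction with
  | mem x hx =>
    obtain ⟨A, hA, rfl⟩ := hx
    have h1 : (toC A * P p).map σ = (P p * toC A).map σ := by rw [hA p]
    rwa [map_mulσ, map_mulσ, toC_aut] at h1
  | zero => rw [zero_mul, mul_zero]
  | add x z _ _ h1 h2 => rw [add_mul, mul_add, h1, h2]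
  | smul c x _ h1 => rw [smul_mul_assoc, mul_smul_comm, h1]

theorem IsHTw.EC_R43 {S' : Finset ℤ} {R : ℤ → Matrix n n ℂ} (hR : IsHTw w Q S' Γ R)
    (hcomm : ∃ Γ' : Subgroup (GL n ℂ), Γ' ≤ Γ ∧ Γ'.relIndex Γ ≠ 0 ∧ ∀ g ∈ Γ', ∀ x ∈ EC P,
      (g : Matrix n n ℂ) * x = x * (g : Matrix n n ℂ)) {x : Matrix n n ℂ} (hx : x ∈ EC P) (p : ℤ) :
    x * R p = R p * x := by
  obtain ⟨Γ', a1, a2, a3⟩ := hcomm
  have D := hR.dc43
  refine D.comm ?_ p
  have h1 : IsTateTensor Γ 1 1 (t11 x) := by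
    refine ⟨Γ', a1, a2, fun g hg => ?_⟩
    rw [slot11, a3 g hg x hx, mul_assoc, ← Units.val_mul, mul_inv_cancel, Units.val_one, mul_one]
  have h2 := hR.ht 1 1 _ h1 2 two_ne_zero
  rw [slot11] at h2
  have h3 : ct43 S' R 2 * x * ct43 S' R 2⁻¹ = x := t11_inj h2
  have h4 : ct43 S' R 2⁻¹ * ct43 S' R 2 = 1 := by
    have := D.ct_inv (inv_ne_zero (two_ne_zero (α := ℂ)))
    rwa [inv_inv] at this
  calc ct43 S' R 2 * x = ct43 S' R 2 * x * (ct43 S' R 2⁻¹ * ct43 S' R 2) := by rw [h4, mul_one]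
    _ = ct43 S' R 2 * x * ct43 S' R 2⁻¹ * ct43 S' R 2 := by rw [← mul_assoc]
    _ = _ := by rw [h3]

/-! ### homogeneity of the semi-invariants -/

theorem IsHTw.homog43 {S' : Finset ℤ} {R : ℤ → Matrix n n ℂ} (hR : IsHTw w Q S' Γ R) {Γ' : Subgroup (GL n ℂ)}
    (h1 : Γ' ≤ Γ) (h2 : Γ'.relIndex Γ ≠ 0) {T T' : Matrix n n ℂ} (hT0 : T ≠ 0) (hT0' : T' ≠ 0)
    (hT : ∀ g ∈ Γ', ∃ c d : ℂ, d * c = 1 ∧ (g : Matrix n n ℂ) * T = c • (T * (g : Matrix n n ℂ)) ∧
      (g : Matrix n n ℂ) * T' = d • (T' * (g : Matrix n n ℂ))) :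
    ∃ m : ℤ, ∀ q, T * R q = R (q + m) * T := by
  have D := hR.dc43
  have htate : IsTateTensor Γ 2 2 (t22 T T') := by
    refine ⟨Γ', h1, h2, fun g hg => ?_⟩
    obtain ⟨c, d, hcd, hgT, hgT'⟩ := hT g hg
    have hgi : (g : Matrix n n ℂ) * ((g⁻¹ : GL n ℂ) : Matrix n n ℂ) = 1 := by
      rw [← Units.val_mul, mul_inv_cancel, Units.val_one]
    rw [slot22, hgT, hgT', smul_mul_assoc, smul_mul_assoc, mul_assoc T, mul_assoc T', hgi, mul_one, mul_one]
    funext i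
    simp only [t22, Matrix.smul_apply, smul_eq_mul]
    linear_combination (T (i (Sum.inl 0)) (i (Sum.inr 0)) * T' (i (Sum.inl 1)) (i (Sum.inr 1))) * hcd
  have h3 := hR.ht 2 2 _ htate 2 two_ne_zero
  rw [slot22] at h3
  have h5 : ct43 S' R 2⁻¹ * ct43 S' R 2 = 1 := by
    have := D.ct_inv (inv_ne_zero (two_ne_zero (α := ℂ)))
    rwa [inv_inv] at this
  have h4 : t22 (ct43 S' R 2 * T * ct43 S' R 2⁻¹) (ct43 S' R 2 * T' * ct43 S' R 2⁻¹) = t22 T T' := h3
  have h6 : ct43 S' R 2 * T' * ct43 S' R 2⁻¹ ≠ 0 := by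
    intro h
    apply hT0'
    have e1 : T' = ct43 S' R 2⁻¹ * (ct43 S' R 2 * T' * ct43 S' R 2⁻¹) * ct43 S' R 2 := by
      calc T' = (ct43 S' R 2⁻¹ * ct43 S' R 2) * T' * (ct43 S' R 2⁻¹ * ct43 S' R 2) := by rw [h5, one_mul, mul_one]
        _ = _ := by simp only [mul_assoc]
    rw [h, mul_zero, zero_mul] at e1
    exact e1
  obtain ⟨c, hc⟩ := t22_cancel h4 h6
  refine D.homog hT0 (c := c) ?_
  calc ct43 S' R 2 * T = ct43 S' R 2 * T * (ct43 S' R 2⁻¹ * ct43 S' R 2) := by rw [h5, mul_one]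
    _ = (ct43 S' R 2 * T * ct43 S' R 2⁻¹) * ct43 S' R 2 := by simp only [mul_assoc]
    _ = _ := by rw [hc, smul_mul_assoc]

theorem IsHW.homog43 (H : IsHW w Q S P) (σ : ℂ ≃+* ℂ) {T : Matrix n n ℂ} (hT0 : T ≠ 0) (hT : SI S P T) :
    ∃ m : ℤ, ∀ q, T * (P q).map σ = (P (q + m)).map σ * T := by
  obtain ⟨g, hg, h1, -⟩ := H.exists_ctσ43 σ (two_ne_zero (α := ℂ))
  obtain ⟨c, hc⟩ := hT g hg
  rw [h1] at hc
  exact (H.dc43 σ).homog hT0 hc

/-! ### the blocks -/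

/-- the identity is a sum of primitive idempotents -/
theorem IsHW.exists_blks43 (H : IsHW w Q S P) : ∃ (ι : Type) (_ : Fintype ι) (e : ι → Matrix n n ℂ),
    (∀ i, IsBlk P (e i)) ∧ (∀ i j, i ≠ j → e i * e j = 0) ∧ ∑ i, e i = 1 := by
  obtain ⟨B, Bi, Qi, h1, h2, h3, h4, hM⟩ := H.exists_basis
  obtain ⟨ι, i1, i2, e, a1, a2, a3, a4⟩ := exists_irr_sum (L := (LB Q S P B Bi : Set (Matrix n n ℂ)))
    (fun X hX => H.LB_star h1 h2 hM hX)
  have hX : ∀ X ∈ LH Q S P, cj B Bi X ∈ (LB Q S P B Bi : Set (Matrix n n ℂ)) := by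
    intro X hX
    rw [SetLike.mem_coe, mem_LB, cj_cj h2]
    exact hX
  refine ⟨ι, i1, fun i => cj Bi B (e i), fun i => ⟨?_, ?_, ?_, ?_⟩, fun i j hij => ?_, ?_⟩
  · refine H.EC_of_LH fun X hXL => ?_
    have h5 := (a1 i).mem _ (hX X hXL)
    calc cj Bi B (e i) * X = cj Bi B (e i) * cj Bi B (cj B Bi X) := by rw [cj_cj h2]
      _ = cj Bi B (e i * cj B Bi X) := cj_mul h1 _ _
      _ = cj Bi B (cj B Bi X * e i) := by rw [h5]
      _ = cj Bi B (cj B Bi X) * cj Bi B (e i) := (cj_mul h1 _ _).symm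
      _ = _ := by rw [cj_cj h2]
  · rw [cj_mul h1, (a1 i).idem]
  · intro h
    apply (a1 i).ne
    have h' : cj Bi B (e i) = 0 := h
    rw [← cj_cj h1 (e i), h', cj_zero]
  · intro x hx
    obtain ⟨c, hc⟩ := (a1 i).min (cj B Bi x) (by
      intro X hXL
      rw [SetLike.mem_coe, mem_LB] at hXL
      calc X * cj B Bi x = cj B Bi (cj Bi B X) * cj B Bi x := by rw [cj_cj h1]
        _ = cj B Bi (cj Bi B X * x) := cj_mul h2 _ _
        _ = cj B Bi (x * cj Bi B X) := by rw [H.LH_EC hXL hx]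
        _ = cj B Bi x * cj B Bi (cj Bi B X) := (cj_mul h2 _ _).symm
        _ = _ := by rw [cj_cj h1])
    refine ⟨c, ?_⟩
    rw [← cj_smul, ← hc, ← cj_mul h1, ← cj_mul h1, cj_cj h2]
  · rw [cj_mul h1, a3 i j hij, cj_zero]
  · rw [← cj_sum, a4, cj_one h2]

/-- the numbers agree on all the endomorphisms -/
theorem IsHTs.tr43 (H : IsHW w Q S P) {σ : ℂ ≃+* ℂ} {S' : Finset ℤ} {R : ℤ → Matrix n n ℂ}
    (hR : IsHTs w Q S P Γ σ S' R)
    (hcomm : ∃ Γ' : Subgroup (GL n ℂ), Γ' ≤ Γ ∧ Γ'.relIndex Γ ≠ 0 ∧ ∀ g ∈ Γ', ∀ x ∈ EC P,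
      (g : Matrix n n ℂ) * x = x * (g : Matrix n n ℂ)) {x : Matrix n n ℂ} (hx : x ∈ EC P) (p : ℤ) :
    (x * R p).trace = (x * (P p).map σ).trace := by
  obtain ⟨ι, _, e, he, -, hs⟩ := H.exists_blks43
  have key : ∀ F : Matrix n n ℂ, (∀ y ∈ EC P, y * F = F * y) → (x * F).trace = ∑ i, (e i * x * e i * F).trace := by
    intro F hF
    have h1 : x * F = ∑ i, e i * (e i * (x * F)) := by
      have h2 : ∀ i, e i * (e i * (x * F)) = e i * (x * F) := fun i => by rw [← mul_assoc, (he i).idem]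
      simp only [h2]
      rw [← Finset.sum_mul, hs, one_mul]
    rw [h1, Matrix.trace_sum]
    refine Finset.sum_congr rfl fun i _ => ?_
    rw [Matrix.trace_mul_comm]
    congr 1
    calc e i * (x * F) * e i = e i * x * (F * e i) := by simp only [mul_assoc]
      _ = e i * x * (e i * F) := by rw [hF _ (he i).mem]
      _ = _ := by simp only [mul_assoc]
  rw [key (R p) fun y hy => hR.toIsHTw.EC_R43 hcomm hy p, key ((P p).map σ) fun y hy => EC_Pσ43 hy σ p]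
  refine Finset.sum_congr rfl fun i _ => ?_
  obtain ⟨c, hc⟩ := (he i).min x hx
  have hid : ∀ F : Matrix n n ℂ, F * F = F → e i * F = F * e i → (e i * F) * (e i * F) = e i * F := by
    intro F h1 h2
    calc e i * F * (e i * F) = e i * (F * e i) * F := by simp only [mul_assoc]
      _ = e i * e i * (F * F) := by rw [← h2]; simp only [mul_assoc]
      _ = _ := by rw [(he i).idem, h1]
  have t1 : (e i * R p).trace = (e i * (P p).map σ).trace := by
    rw [trace_eq_rank (hid _ (by rw [hR.mul, if_pos rfl]) (hR.toIsHTw.EC_R43 hcomm (he i).mem p)),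
      trace_eq_rank (hid _ (by have := (H.dc43 σ).mul p p; rwa [if_pos rfl] at this) (EC_Pσ43 (he i).mem σ p)),
      hR.rank _ (he i) p]
  rw [hc, smul_mul_assoc, smul_mul_assoc, Matrix.trace_smul, Matrix.trace_smul, t1]

/-! ### the subgroup of finite index commutes with the endomorphisms -/

theorem comm_of_semi43 (H : IsHW w Q S P) {g : GL n ℂ}
    (hg : ∀ T : Matrix n n ℂ, SI S P T → ∃ c : ℂ, (g : Matrix n n ℂ) * T = c • (T * (g : Matrix n n ℂ)))
    {x : Matrix n n ℂ} (hx : x ∈ EC P) : (g : Matrix n n ℂ) * x = x * (g : Matrix n n ℂ) := by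
  have hi : ∀ e ∈ EC P, e * e = e → (g : Matrix n n ℂ) * e = e * (g : Matrix n n ℂ) := by
    intro e he hee
    rcases eq_or_ne e 0 with h0 | h0
    · rw [h0, mul_zero, zero_mul]
    obtain ⟨c, hc⟩ := hg e (H.SI_EC he)
    have h1 : (c * c - c) • (e * (g : Matrix n n ℂ)) = 0 := by
      have h2 : (g : Matrix n n ℂ) * (e * e) = (c * c) • (e * (g : Matrix n n ℂ)) := by
        rw [← mul_assoc, hc, smul_mul_assoc, mul_assoc, hc, mul_smul_comm, smul_smul, ← mul_assoc, hee]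
      rw [hee, hc] at h2
      rw [sub_smul, ← h2, sub_self]
    have h3 : e * (g : Matrix n n ℂ) ≠ 0 := by
      intro h
      apply h0
      calc e = e * (g : Matrix n n ℂ) * ((g⁻¹ : GL n ℂ) : Matrix n n ℂ) := by
            rw [mul_assoc, ← Units.val_mul, mul_inv_cancel, Units.val_one, mul_one]
        _ = 0 := by rw [h, zero_mul]
    have h4 := (smul_eq_zero.1 h1).resolve_right h3
    have h5 : c * (c - 1) = 0 := by linear_combination h4
    rcases mul_eq_zero.1 h5 with h6 | h6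
    · exfalso
      rw [h6, zero_smul] at hc
      apply h0
      calc e = ((g⁻¹ : GL n ℂ) : Matrix n n ℂ) * ((g : Matrix n n ℂ) * e) := by
            rw [← mul_assoc, ← Units.val_mul, inv_mul_cancel, Units.val_one, one_mul]
        _ = 0 := by rw [hc, mul_zero]
    · rw [hc, sub_eq_zero.1 h6, one_smul]
  have hECmul : ∀ x ∈ EC P, ∀ y ∈ EC P, x * y ∈ EC P := by
    intro x hx y hy
    refine H.descent fun σ => ?_
    rw [mul_assoc, IsHW.EC_hwσ hy σ, ← mul_assoc, IsHW.EC_hwσ hx σ, mul_assoc]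
  obtain ⟨ι, _, e, he, ho, hs⟩ := H.exists_blks43
  classical
  have h1 : x = ∑ i, ∑ j, e i * x * e j := by
    have h2 : x = (∑ i, e i) * x * ∑ j, e j := by rw [hs, one_mul, mul_one]
    conv_lhs => rw [h2]
    rw [Finset.sum_mul, Finset.sum_mul]
    exact Finset.sum_congr rfl fun i _ => by rw [Finset.mul_sum]
  rw [h1, Finset.mul_sum, Finset.sum_mul]
  refine Finset.sum_congr rfl fun i _ => ?_
  rw [Finset.mul_sum, Finset.sum_mul]
  refine Finset.sum_congr rfl fun j _ => ?_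
  have hge := hi _ (he i).mem (he i).idem
  by_cases hij : i = j
  · subst hij
    obtain ⟨c, hc⟩ := (he i).min x hx
    rw [hc, mul_smul_comm, smul_mul_assoc, hge]
  · have y1 : e i * x * e j ∈ EC P := hECmul _ (hECmul _ (he i).mem _ hx) _ (he j).mem
    have y2 : e i * (e i * x * e j) = e i * x * e j := by
      rw [← mul_assoc, ← mul_assoc, (he i).idem]
    have y3 : e i * x * e j * e i = 0 := by rw [mul_assoc, ho j i (Ne.symm hij), mul_zero]
    have y4 : e i * x * e j * (e i * x * e j) = 0 := by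
      calc e i * x * e j * (e i * x * e j) = e i * x * e j * e i * (x * e j) := by simp only [mul_assoc]
        _ = 0 := by rw [y3, zero_mul]
    have h3 := hi (e i + e i * x * e j) ((EC P).add_mem (he i).mem y1) (by
      rw [add_mul, mul_add, mul_add, (he i).idem, y2, y3, y4, zero_add, add_zero])
    rw [mul_add, add_mul, hge] at h3
    exact add_left_cancel h3

theorem IsGalN.comm (H : IsHW w Q S P) (G : IsGalN w Q S P Γ) : ∃ Γ' : Subgroup (GL n ℂ), Γ' ≤ Γ ∧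
    Γ'.relIndex Γ ≠ 0 ∧ ∀ g ∈ Γ', ∀ x ∈ EC P, (g : Matrix n n ℂ) * x = x * (g : Matrix n n ℂ) := by
  obtain ⟨Γ', a1, a2, a3⟩ := G.semi'
  exact ⟨Γ', a1, a2, fun g hg x hx => comm_of_semi43 H (a3 g hg) hx⟩

end MH
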