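import Pool.Agent.Helper43.GH.Bas
import Pool.Agent.Helper14.TR.Defs

/-!
Project GH, linear algebra, second part: pairs of blocks and gluing. Definitions.
-/

set_option linter.unusedSectionVars false
set_option linter.unusedVariables false

open Matrix Module

namespace GH

open MH

variable {n : Type*} [Fintype n] [DecidableEq n] {m : Type*} [Fintype m] [DecidableEq m]
  {k : Type*} [Fintype k] [DecidableEq k]

/-- `P` is a Lie algebra of pairs of matrices, closed under the adjoint, `(h₁, h₂) ∈ P` Hermitian. -/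
structure PG (P : Submodule ℂ (Matrix m m ℂ × Matrix k k ℂ)) (h₁ : Matrix m m ℂ) (E₁ : ℝ → Matrix m m ℂ)
    (Λ₁ : Finset ℝ) (h₂ : Matrix k k ℂ) (E₂ : ℝ → Matrix k k ℂ) (Λ₂ : Finset ℝ) : Prop where
  spec1 : Spec h₁ E₁ Λ₁
  spec2 : Spec h₂ E₂ Λ₂
  br : ∀ p ∈ P, ∀ q ∈ P, p * q - q * p ∈ P
  st : ∀ p ∈ P, (p.1ᴴ, p.2ᴴ) ∈ P
  mem : (h₁, h₂) ∈ P
  one1 : ((1 : Matrix m m ℂ), (0 : Matrix k k ℂ)) ∈ P
  one2 : ((0 : Matrix m m ℂ), (1 : Matrix k k ℂ)) ∈ P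

/-- The elements of degree `ν`. -/
def Pd (P : Submodule ℂ (Matrix m m ℂ × Matrix k k ℂ)) (h₁ : Matrix m m ℂ) (h₂ : Matrix k k ℂ) (ν : ℝ) :
    Set (Matrix m m ℂ × Matrix k k ℂ) :=
  {p | p ∈ P ∧ h₁ * p.1 - p.1 * h₁ = (ν : ℂ) • p.1 ∧ h₂ * p.2 - p.2 * h₂ = (ν : ℂ) • p.2}

/-- The elements that live on the kernels. -/
def PK (P : Submodule ℂ (Matrix m m ℂ × Matrix k k ℂ)) (E₁ : ℝ → Matrix m m ℂ) (E₂ : ℝ → Matrix k k ℂ) :
    Submodule ℂ (Matrix m m ℂ × Matrix k k ℂ) where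
  carrier := {p | p ∈ P ∧ E₁ 0 * p.1 * E₁ 0 = p.1 ∧ E₂ 0 * p.2 * E₂ 0 = p.2}
  add_mem' := by
    rintro a b ⟨ha, ha', ha''⟩ ⟨hb, hb', hb''⟩
    refine ⟨P.add_mem ha hb, ?_, ?_⟩
    · rw [Prod.fst_add, mul_add, add_mul, ha', hb']
    · rw [Prod.snd_add, mul_add, add_mul, ha'', hb'']
  zero_mem' := ⟨P.zero_mem, by simp, by simp⟩
  smul_mem' := by
    rintro c a ⟨ha, ha', ha''⟩
    refine ⟨P.smul_mem c ha, ?_, ?_⟩
    · rw [Prod.smul_fst, mul_smul_comm, smul_mul_assoc, ha']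
    · rw [Prod.smul_snd, mul_smul_comm, smul_mul_assoc, ha'']

/-- The commutant of the first coordinates of nonzero degree (and `h₁`) is trivial. -/
def Nr1 (P : Submodule ℂ (Matrix m m ℂ × Matrix k k ℂ)) (h₁ : Matrix m m ℂ) (h₂ : Matrix k k ℂ) : Prop :=
  ∀ T : Matrix m m ℂ, T * h₁ = h₁ * T → (∀ ν : ℝ, ν ≠ 0 → ∀ p ∈ Pd P h₁ h₂ ν, T * p.1 = p.1 * T) →
    ∃ c : ℂ, T = c • (1 : Matrix m m ℂ)

/-- The same for the second coordinates. -/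
def Nr2 (P : Submodule ℂ (Matrix m m ℂ × Matrix k k ℂ)) (h₁ : Matrix m m ℂ) (h₂ : Matrix k k ℂ) : Prop :=
  ∀ T : Matrix k k ℂ, T * h₂ = h₂ * T → (∀ ν : ℝ, ν ≠ 0 → ∀ p ∈ Pd P h₁ h₂ ν, T * p.2 = p.2 * T) →
    ∃ c : ℂ, T = c • (1 : Matrix k k ℂ)

/-- `P` is a graph modulo scalars. -/
def Gra (P : Submodule ℂ (Matrix m m ℂ × Matrix k k ℂ)) : Prop :=
  ∀ p ∈ P, (∃ c : ℂ, p.1 = c • (1 : Matrix m m ℂ)) ↔ ∃ c : ℂ, p.2 = c • (1 : Matrix k k ℂ)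

/-- `T` intertwines the elements of `P` up to scalars. -/
def LinkT (P : Submodule ℂ (Matrix m m ℂ × Matrix k k ℂ)) : Prop :=
  ∃ T : Matrix k m ℂ, T ≠ 0 ∧ ∀ p ∈ P, ∃ c : ℂ, p.2 * T - T * p.1 = c • T

/-- `F` is a bilinear form preserved by the elements of `P` up to scalars. -/
def LinkF (P : Submodule ℂ (Matrix m m ℂ × Matrix k k ℂ)) : Prop :=
  ∃ F : Matrix k m ℂ, F ≠ 0 ∧ ∀ p ∈ P, ∃ c : ℂ, p.2ᵀ * F + F * p.1 = c • F

/-- `T` is an eigenvector of all brackets with elements of `L`. -/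
def Sem (L : Submodule ℂ (Matrix n n ℂ)) (T : Matrix n n ℂ) : Prop :=
  ∀ x ∈ L, ∃ c : ℂ, x * T - T * x = c • T

/-- Orthogonal minimal idempotents `e i = w i * v i` of the commutant of `L` with sum one. -/
structure FD {ι : Type*} [Fintype ι] [DecidableEq ι] (L : Submodule ℂ (Matrix n n ℂ)) (e : ι → Matrix n n ℂ)
    (r : ι → ℕ) (w : ∀ i, Matrix n (Fin (r i)) ℂ) (v : ∀ i, Matrix (Fin (r i)) n ℂ) : Prop where
  vw : ∀ i, v i * w i = 1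
  wv : ∀ i, w i * v i = e i
  orth : ∀ i j, i ≠ j → e i * e j = 0
  sum : ∑ i, e i = 1
  com : ∀ i, ∀ x ∈ L, x * e i = e i * x
  min : ∀ i, ∀ x : Matrix n n ℂ, (∀ y ∈ L, x * y = y * x) → ∃ c : ℂ, e i * x * e i = c • e i

/-- Full type, large enough. -/
def TyF (L : Submodule ℂ (Matrix n n ℂ)) : Prop :=
  Ty L ∧ ((∀ x : Matrix n n ℂ, x.trace = 0 → x ∈ L) ∨ 5 ≤ Fintype.card n)

/-- The span of the brackets. -/
def brk (L : Submodule ℂ (Matrix n n ℂ)) : Submodule ℂ (Matrix n n ℂ) :=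
  Submodule.span ℂ {z | ∃ x ∈ L, ∃ y ∈ L, z = x * y - y * x}

/-- Some element of `L` is scalar on `f` and not on `e`. -/
def Prd (L : Submodule ℂ (Matrix n n ℂ)) (e f : Matrix n n ℂ) : Prop :=
  ∃ x ∈ L, (¬ ∃ c : ℂ, x * e = c • e) ∧ ∃ c : ℂ, x * f = c • f

/-- `e` and `f` are linked by a semi-invariant operator or by a semi-invariant form. -/
def Lnk (L : Submodule ℂ (Matrix n n ℂ)) (e f : Matrix n n ℂ) : Prop :=
  (∃ T : Matrix n n ℂ, T ≠ 0 ∧ f * T = T ∧ T * e = T ∧ Sem L T) ∨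
    ∃ F : Matrix n n ℂ, F ≠ 0 ∧ fᵀ * F = F ∧ F * e = F ∧ ∀ x ∈ L, ∃ c : ℂ, xᵀ * F + F * x = c • F

/-- The pairs of compressions of the elements of `L` to two blocks, plus scalars. -/
def PP {a b : ℕ} (L : Submodule ℂ (Matrix n n ℂ)) (w₁ : Matrix n (Fin a) ℂ) (v₁ : Matrix (Fin a) n ℂ)
    (w₂ : Matrix n (Fin b) ℂ) (v₂ : Matrix (Fin b) n ℂ) :
    Submodule ℂ (Matrix (Fin a) (Fin a) ℂ × Matrix (Fin b) (Fin b) ℂ) where
  carrier := {p | ∃ x ∈ L, ∃ c d : ℂ, p = (v₁ * x * w₁ + c • (1 : Matrix (Fin a) (Fin a) ℂ),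
    v₂ * x * w₂ + d • (1 : Matrix (Fin b) (Fin b) ℂ))}
  add_mem' := by
    rintro _ _ ⟨x, hx, c, d, rfl⟩ ⟨y, hy, c', d', rfl⟩
    refine ⟨x + y, L.add_mem hx hy, c + c', d + d', ?_⟩
    rw [Prod.mk_add_mk, Matrix.mul_add, Matrix.mul_add, Matrix.add_mul, Matrix.add_mul, add_smul, add_smul]
    congr 1 <;> abel
  zero_mem' := ⟨0, L.zero_mem, 0, 0, by simp [Prod.zero_eq_mk]⟩
  smul_mem' := by
    rintro t _ ⟨x, hx, c, d, rfl⟩
    refine ⟨t • x, L.smul_mem t hx, t * c, t * d, ?_⟩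
    rw [Prod.smul_mk, smul_add, smul_add, Matrix.mul_smul, Matrix.mul_smul, Matrix.smul_mul, Matrix.smul_mul,
      smul_smul, smul_smul]

end GH
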