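import Pool.Agent.Helper43.GH.Defs

/-!
Project GH, block GH-0: basic facts on the grading, stable subspaces.
-/

set_option linter.unusedSectionVars false
set_option linter.unusedVariables false
set_option linter.unusedSimpArgs false
set_option linter.deprecated false

open Matrix Module

namespace GH

open MH

variable {n : Type*} [Fintype n] [DecidableEq n] {L : Submodule ℂ (Matrix n n ℂ)} {h : Matrix n n ℂ}
  {E : ℝ → Matrix n n ℂ} {Λ : Finset ℝ}

namespace Gr

variable (G : Gr L h E Λ)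
include G

theorem cmp_mem {x : Matrix n n ℂ} (hx : x ∈ L) (ν : ℝ) : cmp E Λ ν x ∈ L := by
  classical
  have S := G.spec
  by_cases hν : ν ∈ (Λ ×ˢ Λ).image (fun p => p.1 - p.2)
  · let A : Matrix n n ℂ →ₗ[ℂ] Matrix n n ℂ :=
      { toFun := fun y => h * y - y * h
        map_add' := by intro a b; noncomm_ring
        map_smul' := by intro c a; simp [mul_smul_comm, smul_mul_assoc, smul_sub] }
    set Q : Finset ℂ := ((Λ ×ˢ Λ).image (fun p => p.1 - p.2)).image (fun r : ℝ => (r : ℂ)) with hQ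
    have := eig_mem (K := ℂ) A (M := L) (fun y hy => G.br h G.mem y hy) Q
      (fun c => cmp E Λ c.re x) (by
        intro c hc
        obtain ⟨r, _, rfl⟩ := Finset.mem_image.mp hc
        change h * cmp E Λ ((r : ℂ)).re x - cmp E Λ ((r : ℂ)).re x * h = _
        rw [Complex.ofReal_re]
        exact S.bracket_cmp r x) (by
        rw [hQ, Finset.sum_image (by intro a _ b _ hab; exact Complex.ofReal_injective hab)]
        simp only [Complex.ofReal_re]
        rw [← S.sum_cmp x]; exact hx) (ν : ℂ) (Finset.mem_image.mpr ⟨ν, hν, rfl⟩)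
    simpa using this
  · have : cmp E Λ ν x = 0 := by
      apply S.ext
      intro μ μ'
      rw [S.block_cmp]
      split_ifs with hc
      · by_cases hμ : μ ∈ Λ
        · by_cases hμ' : μ' ∈ Λ
          · exfalso; apply hν
            exact Finset.mem_image.mpr ⟨(μ, μ'), Finset.mem_product.mpr ⟨hμ, hμ'⟩, hc⟩
          · rw [S.supp μ' hμ']; simp
        · rw [S.supp μ hμ]; simp
      · simp
    rw [this]; exact L.zero_mem

theorem cmp_mem_Ld {x : Matrix n n ℂ} (hx : x ∈ L) (ν : ℝ) : cmp E Λ ν x ∈ Ld L h ν :=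
  ⟨G.cmp_mem hx ν, G.spec.bracket_cmp ν x⟩

theorem Ld_block {ν : ℝ} {x : Matrix n n ℂ} (hx : x ∈ Ld L h ν) {μ μ' : ℝ} (hne : μ - μ' ≠ ν) :
    E μ * x * E μ' = 0 := by
  have h1 := G.spec.sandwich x μ μ'
  rw [hx.2, mul_smul_comm, smul_mul_assoc] at h1
  have h2 : (((μ : ℂ) - μ') - ν) • (E μ * x * E μ') = 0 := by
    rw [sub_smul, ← h1, sub_self]
  rcases smul_eq_zero.mp h2 with h3 | h3
  · exfalso; apply hne
    have : (μ - μ') - ν = 0 := by exact_mod_cast h3
    linarith
  · exact h3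

theorem Ld_of_block {ν : ℝ} {x : Matrix n n ℂ} (hx : x ∈ L)
    (hb : ∀ μ μ' : ℝ, μ - μ' ≠ ν → E μ * x * E μ' = 0) : x ∈ Ld L h ν := by
  refine ⟨hx, ?_⟩
  apply G.spec.ext
  intro μ μ'
  rw [G.spec.sandwich, mul_smul_comm, smul_mul_assoc]
  by_cases hc : μ - μ' = ν
  · congr 1
    rw [← hc]; push_cast; ring
  · rw [hb μ μ' hc]; simp

theorem Ld_mul_E {ν : ℝ} {x : Matrix n n ℂ} (hx : x ∈ Ld L h ν) (μ : ℝ) :
    x * E μ = E (μ + ν) * x * E μ := by
  apply G.spec.ext
  intro ρ ρ'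
  by_cases h1 : ρ' = μ
  · subst h1
    by_cases h2 : ρ = ρ' + ν
    · subst h2
      simp only [← mul_assoc, G.spec.mul, if_true]
    · have e1 : E ρ * (x * E ρ') * E ρ' = E ρ * x * E ρ' := by
        rw [← mul_assoc, mul_assoc _ (E ρ') (E ρ'), G.spec.mul, if_pos rfl]
      rw [e1, G.Ld_block hx (by intro h3; apply h2; linarith)]
      simp only [← mul_assoc, G.spec.mul, if_neg h2]
      simp
  · have e1 : E μ * E ρ' = 0 := by rw [G.spec.mul, if_neg (Ne.symm h1)]
    rw [mul_assoc, mul_assoc x, e1, mul_assoc, mul_assoc _ (E μ), e1]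
    simp

theorem star_Ld {ν : ℝ} {x : Matrix n n ℂ} (hx : x ∈ Ld L h ν) : xᴴ ∈ Ld L h (-ν) := by
  refine ⟨G.st x hx.1, ?_⟩
  have h1 := congrArg Matrix.conjTranspose hx.2
  rw [conjTranspose_sub, conjTranspose_mul, conjTranspose_mul, conjTranspose_smul, G.spec.hh] at h1
  have h2 : star (ν : ℂ) = (ν : ℂ) := Complex.conj_ofReal ν
  rw [h2] at h1
  push_cast
  rw [neg_smul, ← h1]
  abel

/-- the components have degree `ν - 0` and their adjoints -/
theorem E_mul_Ld {ν : ℝ} {x : Matrix n n ℂ} (hx : x ∈ Ld L h ν) (μ : ℝ) :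
    E μ * x = E μ * x * E (μ - ν) := by
  have h1 := G.Ld_mul_E (G.star_Ld hx) μ
  have h2 := congrArg Matrix.conjTranspose h1
  rw [conjTranspose_mul, conjTranspose_mul, conjTranspose_mul, conjTranspose_conjTranspose, G.spec.star,
    G.spec.star] at h2
  rw [← sub_eq_add_neg, ← mul_assoc] at h2
  exact h2

theorem br_Ld {μ ν : ℝ} {x y : Matrix n n ℂ} (hx : x ∈ Ld L h μ) (hy : y ∈ Ld L h ν) :
    x * y - y * x ∈ Ld L h (μ + ν) := by
  refine ⟨G.br x hx.1 y hy.1, ?_⟩
  have h1 : h * (x * y - y * x) - (x * y - y * x) * h =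
      (h * x - x * h) * y + x * (h * y - y * h) - ((h * y - y * h) * x + y * (h * x - x * h)) := by
    noncomm_ring
  rw [h1, hx.2, hy.2]
  push_cast
  simp only [smul_mul_assoc, mul_smul_comm]
  module

theorem EE {ν : ℝ} (hν : ν ≠ 0) {x : Matrix n n ℂ} (hx : x ∈ Ld L h ν) : E 0 * x * E 0 = 0 :=
  G.Ld_block hx (by simpa using Ne.symm hν)

theorem E_comm {x : Matrix n n ℂ} (hx : x ∈ Ld L h 0) (μ : ℝ) : E μ * x = x * E μ := by
  rw [G.Ld_mul_E hx μ, G.E_mul_Ld hx μ, add_zero, sub_zero]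

theorem E0_comm {x : Matrix n n ℂ} (hx : x ∈ Ld L h 0) : E 0 * x = x * E 0 := G.E_comm hx 0

theorem h_E0 : h * E 0 = 0 := by
  rw [G.spec.h_mul]; simp

theorem E0_h : E 0 * h = 0 := by
  rw [G.spec.mul_h]; simp

theorem E0_E0 : E 0 * E 0 = E 0 := by
  rw [G.spec.mul, if_pos rfl]

theorem KK_left {z : Matrix n n ℂ} (hz : z ∈ KK L E) : E 0 * z = z := by
  conv_lhs => rw [← hz.2]
  rw [← mul_assoc, ← mul_assoc, G.E0_E0, hz.2]

theorem KK_right {z : Matrix n n ℂ} (hz : z ∈ KK L E) : z * E 0 = z := by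
  conv_lhs => rw [← hz.2]
  rw [mul_assoc, G.E0_E0, hz.2]

theorem KK_Ld {z : Matrix n n ℂ} (hz : z ∈ KK L E) : z ∈ Ld L h 0 := by
  refine ⟨hz.1, ?_⟩
  rw [← hz.2, mul_assoc (E 0), ← mul_assoc h, G.h_E0, mul_assoc (E 0) _ h, mul_assoc z, G.E0_h]
  simp

theorem KK_star {z : Matrix n n ℂ} (hz : z ∈ KK L E) : zᴴ ∈ KK L E := by
  refine ⟨G.st z hz.1, ?_⟩
  have h1 := congrArg Matrix.conjTranspose hz.2
  rw [conjTranspose_mul, conjTranspose_mul, G.spec.star] at h1
  rw [mul_assoc]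
  exact h1

theorem KK_br {z y : Matrix n n ℂ} (hz : z ∈ KK L E) (hy : y ∈ Ld L h 0) : y * z - z * y ∈ KK L E := by
  refine ⟨G.br y hy.1 z hz.1, ?_⟩
  have h1 := G.KK_left hz
  have h2 := G.KK_right hz
  have h3 := G.E0_comm hy
  have e1 : E 0 * (y * z - z * y) * E 0 = (E 0 * y) * (z * E 0) - (E 0 * z) * (y * E 0) := by noncomm_ring
  have e2 : z * (E 0 * y) = z * y := by rw [← mul_assoc, h2]
  have e3 : y * E 0 * z = y * z := by rw [mul_assoc, h1]
  rw [e1, h2, h1, h3, e3, ← h3, e2]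

/-- an element of `L` is the sum of its components -/
theorem induct {p : Matrix n n ℂ → Prop} (h0 : ∀ x ∈ Ld L h 0, p x)
    (h1 : ∀ ν : ℝ, ν ≠ 0 → ∀ x ∈ Ld L h ν, p x) (hz : p 0) (ha : ∀ x y, p x → p y → p (x + y))
    {x : Matrix n n ℂ} (hx : x ∈ L) : p x := by
  classical
  rw [G.spec.sum_cmp x]
  apply Finset.sum_induction _ p ha hz
  intro ν _
  by_cases hν : ν = 0
  · subst hν
    exact h0 _ (G.cmp_mem_Ld hx 0)
  · exact h1 ν hν _ (G.cmp_mem_Ld hx ν)

end Gr

/-- the orthogonal projection to a subspace, and what commutes with it -/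
theorem proj (W : Submodule ℂ (n → ℂ)) : ∃ T : Matrix n n ℂ, T * T = T ∧ Tᴴ = T ∧ (∀ v, v ∈ W ↔ T *ᵥ v = v) ∧
    ∀ x : Matrix n n ℂ, (∀ v ∈ W, x *ᵥ v ∈ W) → (∀ v ∈ W, xᴴ *ᵥ v ∈ W) → T * x = x * T := by
  classical
  set e := (WithLp.linearEquiv 2 ℂ (n → ℂ)) with he
  set U : Submodule ℂ (EuclideanSpace ℂ n) := W.comap e.toLinearMap with hU
  have hUmem : ∀ v : EuclideanSpace ℂ n, v ∈ U ↔ WithLp.ofLp v ∈ W := fun v => Iff.rfl
  let p : EuclideanSpace ℂ n →ₗ[ℂ] EuclideanSpace ℂ n := U.starProjection.toLinearMap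
  have hp : ∀ v, p v = U.starProjection v := fun v => rfl
  obtain ⟨T, hT⟩ : ∃ T : Matrix n n ℂ, Matrix.toEuclideanLin T = p :=
    ⟨Matrix.toEuclideanLin.symm p, by simp⟩
  have e1 : ∀ (A B : Matrix n n ℂ) (v : EuclideanSpace ℂ n), Matrix.toEuclideanLin (A * B) v =
      Matrix.toEuclideanLin A (Matrix.toEuclideanLin B v) := by
    intro A B v
    apply (WithLp.ofLp_injective 2)
    simp only [Matrix.ofLp_toEuclideanLin_apply, Matrix.mulVec_mulVec]
  have hmem : ∀ v, v ∈ W ↔ T *ᵥ v = v := by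
    intro v
    have h1 : WithLp.toLp 2 v ∈ U ↔ v ∈ W := Iff.rfl
    rw [← h1, ← Submodule.starProjection_eq_self_iff, ← hp, ← hT]
    constructor
    · intro h2
      have := congrArg WithLp.ofLp h2
      simpa using this
    · intro h2
      apply (WithLp.ofLp_injective 2)
      simpa using h2
  refine ⟨T, ?_, ?_, hmem, ?_⟩
  · apply Matrix.toEuclideanLin.injective
    apply LinearMap.ext
    intro v
    rw [e1, hT, hp, hp]
    exact Submodule.starProjection_eq_self_iff.mpr (Submodule.starProjection_apply_mem U v)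
  · apply Matrix.toEuclideanLin.injective
    apply LinearMap.ext
    intro v
    apply ext_inner_right ℂ
    intro w
    rw [Matrix.toEuclideanLin_conjTranspose_eq_adjoint, LinearMap.adjoint_inner_left, hT, hp, hp]
    exact (Submodule.inner_starProjection_left_eq_right U v w).symm
  · intro x hx hx'
    have hadj : ∀ v w : EuclideanSpace ℂ n,
        inner ℂ (Matrix.toEuclideanLin xᴴ v) w = inner ℂ v (Matrix.toEuclideanLin x w) := by
      intro v w
      rw [Matrix.toEuclideanLin_conjTranspose_eq_adjoint, LinearMap.adjoint_inner_left]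
    have hst : ∀ v ∈ U, Matrix.toEuclideanLin x v ∈ U := by
      intro v hv
      rw [hUmem, Matrix.ofLp_toEuclideanLin_apply]
      exact hx _ hv
    have hst' : ∀ v ∈ U, Matrix.toEuclideanLin xᴴ v ∈ U := by
      intro v hv
      rw [hUmem, Matrix.ofLp_toEuclideanLin_apply]
      exact hx' _ hv
    have hort : ∀ v ∈ Uᗮ, Matrix.toEuclideanLin x v ∈ Uᗮ := by
      intro v hv
      rw [Submodule.mem_orthogonal] at hv ⊢
      intro u hu
      rw [← hadj]
      exact hv _ (hst' _ hu)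
    apply Matrix.toEuclideanLin.injective
    apply LinearMap.ext
    intro v
    rw [e1, e1, hT, hp, hp]
    have h1 : Matrix.toEuclideanLin x v = Matrix.toEuclideanLin x (U.starProjection v) +
        Matrix.toEuclideanLin x (v - U.starProjection v) := by
      rw [← map_add]; congr 1; abel
    exact Submodule.eq_starProjection_of_mem_orthogonal'
      (z := Matrix.toEuclideanLin x (v - U.starProjection v))
      (hst _ (Submodule.starProjection_apply_mem U v))
      (hort _ (Submodule.sub_starProjection_mem_orthogonal v)) h1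

theorem Fam.sub {ι : Type*} [Fintype ι] [DecidableEq ι] {f : ι → Matrix n n ℂ} (F : Fam L f) (G : Gr L h E Λ)
    (W : Submodule ℂ (n → ℂ)) (hW : ∀ x ∈ L, ∀ v ∈ W, x *ᵥ v ∈ W) :
    ∃ I : Finset ι, ∀ v, v ∈ W ↔ (∑ i ∈ I, f i) *ᵥ v = v := by
  classical
  obtain ⟨T, hTT, hTs, hTm, hTc⟩ := proj W
  obtain ⟨c, hc⟩ := F.com T (fun x hx => hTc x (hW x hx) (hW _ (G.st x hx)))
  have h1 : ∀ i, f i * T = c i • f i := by
    intro i
    rw [hc, Finset.mul_sum, Finset.sum_eq_single i]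
    · rw [mul_smul_comm, F.mul, if_pos rfl]
    · intro j _ hj
      rw [mul_smul_comm, F.mul, if_neg (Ne.symm hj), smul_zero]
    · intro h'; exact absurd (Finset.mem_univ i) h'
  have h2 : ∀ i, f i ≠ 0 → c i = 0 ∨ c i = 1 := by
    intro i hi
    have h3 : f i * (T * T) = (c i * c i) • f i := by
      rw [← mul_assoc, h1, smul_mul_assoc, h1, smul_smul]
    rw [hTT, h1] at h3
    have h4 : (c i * (1 - c i)) • f i = 0 := by
      rw [mul_sub, mul_one, sub_smul, ← h3, sub_self]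
    rcases smul_eq_zero.mp h4 with h5 | h5
    · rcases mul_eq_zero.mp h5 with h6 | h6
      · exact Or.inl h6
      · exact Or.inr (sub_eq_zero.mp h6).symm
    · exact absurd h5 hi
  refine ⟨Finset.univ.filter (fun i => c i = 1), fun v => ?_⟩
  have h3 : ∑ i ∈ Finset.univ.filter (fun i => c i = 1), f i = T := by
    rw [hc, Finset.sum_filter]
    refine Finset.sum_congr rfl fun i _ => ?_
    by_cases hi : f i = 0
    · simp [hi]
    · rcases h2 i hi with h4 | h4
      · rw [if_neg (by rw [h4]; exact zero_ne_one), h4, zero_smul]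
      · rw [if_pos h4, h4, one_smul]
  rw [h3]
  exact hTm v

end GH
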