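import Pool.Agent.Helper43.GH.TC5
import Pool.Agent.Helper48.GH.GalE3
import Pool.Agent.Helper14.GH.SDa
import Pool.Agent.Helper2.MON.W2
import Pool.Agent.Helper2.MON.Grp

/-!
Project GH (MP_b8862a_ag): the main theorem, for groups of complex matrices.
-/

set_option linter.unusedSectionVars false
set_option linter.unusedVariables false

open Matrix

namespace MH

variable {n : Type*} [Fintype n] [DecidableEq n]
variable {w : ℤ} {Q : Matrix n n ℚ} {S : Finset ℤ} {P : ℤ → Matrix n n ℂ} {Γ : Subgroup (GL n ℂ)}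

/-- A monodromy group: `D` consists of rational isometries of `Q`, the tensors fixed by subgroups of finite index of `D` are
stable under the Hodge cocharacter, and on every block of rank different from one some element of `D` has no scalar power. -/
structure IsMonB (Q : Matrix n n ℚ) (S : Finset ℤ) (P : ℤ → Matrix n n ℂ) (D : Subgroup (GL n ℚ)) : Prop where
  isom : ∀ g ∈ D, (g : Matrix n n ℚ)ᵀ * Q * (g : Matrix n n ℚ) = Q
  fixed : ∀ a b t, IsTateTensor (mapC D) a b t → ∀ z : ℂ, z ≠ 0 →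
    IsTateTensor (mapC D) a b (actF (slot a b (cochar S P z) (cochar S P z⁻¹)) t)
  big : ∀ e, IsBlk P e → e.rank ≠ 1 → ∃ g ∈ D, ∀ N : ℕ, 0 < N → ∀ c : ℂ, toC ((g : Matrix n n ℚ) ^ N) * e ≠ c • e

theorem IsMonB.mon {D : Subgroup (GL n ℚ)} (M : IsMonB Q S P D) {e : Matrix n n ℂ} (he : IsBlk P e)
    (hr : e.rank ≠ 1) : IsMon Q S P D where
  isom := M.isom
  fixed := M.fixed
  inf := by
    obtain ⟨g, hg, h⟩ := M.big e he hr
    refine ⟨g, hg, fun N hN h1 => h N hN 1 ?_⟩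
    have h2 : (g : Matrix n n ℚ) ^ N = 1 := by rw [← Units.val_pow_eq_pow_val, h1, Units.val_one]
    have h3 : toC (1 : Matrix n n ℚ) = 1 := Matrix.map_one _ (map_zero _) (map_one _)
    rw [h2, h3, one_mul, one_smul]

/-- if all the blocks have rank one, the derived group is trivial -/
theorem InD_one43 (H : IsHW w Q S P) (h1 : ∀ e, IsBlk P e → e.rank = 1) {g : Matrix n n ℂ} (hg : InD Q S P g) :
    g = 1 := by
  obtain ⟨ι, _, e, e1, -, e3⟩ := H.exists_blks43
  have key : ∀ i, g * e i = e i := by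
    intro i
    have hc : g * e i = e i * g := hg.1 _ (H.SI_EC (e1 i).mem)
    obtain ⟨c, hc'⟩ := corner_rank_one (h1 _ (e1 i)).le g
    have h2 : g * e i = c • e i := by
      rw [← hc']
      calc g * e i = g * (e i * e i) := by rw [(e1 i).idem]
        _ = g * e i * e i := by rw [mul_assoc]
        _ = e i * g * e i := by rw [hc]
    have h3 := hg.2.2 _ (e1 i)
    have h4 : g * e i + (1 - e i) = 1 + (c - 1) • e i := by
      rw [h2, sub_smul, one_smul]
      abel
    rw [h4, det_idem43 (e1 i).idem, h1 _ (e1 i), pow_one] at h3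
    rw [h2, h3, one_smul]
  calc g = g * ∑ i, e i := by rw [e3, mul_one]
    _ = ∑ i, e i := by rw [Finset.mul_sum]; exact Finset.sum_congr rfl fun i _ => key i
    _ = 1 := e3

/-- the semi-invariants and a monodromy group in `Γ` -/
theorem IsGalN.semiD (G : IsGalN w Q S P Γ) {D : Subgroup (GL n ℚ)} (hD : mapC D ≤ Γ) : SemiD S P D := by
  obtain ⟨Γ', a1, a2, a3⟩ := G.semi'
  refine ⟨D ⊓ Γ'.comap (Matrix.GeneralLinearGroup.map (algebraMap ℚ ℂ)), inf_le_left, ?_, ?_⟩
  · rw [Subgroup.inf_relIndex_left, Subgroup.relIndex_comap]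
    exact fun h => a2 (Subgroup.relIndex_eq_zero_of_le_right hD h)
  · intro g hg T hT
    obtain ⟨c, hc⟩ := a3 _ hg.2 T hT
    exact ⟨c, hc⟩

/-- **The main theorem** for a group of complex matrices. -/
theorem gh_main43 (H : IsHW w Q S P) (hdom : ∀ e, IsBlk P e → DomB w Q S P e) :
    (∀ g : GL n ℂ, InD Q S P (g : Matrix n n ℂ) → g ∈ MT S P) ∧
    (∀ g ∈ MT S P, ∀ h ∈ MT S P, InD Q S P ((g * h * g⁻¹ * h⁻¹ : GL n ℂ) : Matrix n n ℂ)) ∧
    ∀ Γ : Subgroup (GL n ℂ), IsGalN w Q S P Γ →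
      (∃ D : Subgroup (GL n ℚ), IsMonB Q S P D ∧ mapC D ≤ Γ) ∨
        ((∀ e, IsBlk P e → e.rank ≠ 1 → ∃ σ : ℂ ≃+* ℂ, ∀ d : ℕ, (∀ p, d ∣ (e * (P p).map σ).rank) → d = 1) ∧
          IsTateN S P Γ) →
      (∀ (a b : ℕ) (t : (Fin a ⊕ Fin b → n) → ℂ), IsTateTensor Γ a b t → MTfix S P a b t) ∧
        (IsAbel w Q S P Γ → ∀ (a b : ℕ) (t : (Fin a ⊕ Fin b → n) → ℂ), MTfix S P a b t → IsTateTensor Γ a b t) := by
  obtain ⟨B, Bi, Qi, h1, h2, -, -, hM⟩ := H.exists_basis
  refine ⟨fun g hg => H.InD_MT hdom hg, fun g hg h hh => H.comm_InD hg hh, fun Γ G hAB => ⟨?_, fun hA a b t hm =>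
    G.tate_ge H hA (fun g hg => H.InD_MT hdom hg) hm⟩⟩
  intro a b t ht
  refine G.tate_le H ht ?_
  rcases hAB with ⟨D, M, hle⟩ | ⟨hgcd, hT⟩
  · intro g hg
    by_cases hall : ∀ e, IsBlk P e → e.rank = 1
    · have h3 := InD_one43 H hall hg
      have h4 : g = 1 := Units.ext h3
      rw [h4]
      have h5 : slot a b ((1 : GL n ℂ) : Matrix n n ℂ) (((1 : GL n ℂ)⁻¹ : GL n ℂ) : Matrix n n ℂ) = fun _ => 1 := by
        funext k
        rcases k with k | k
        · rfl
        · simp [slot]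
      rw [h5, actF_one]
    push Not at hall
    obtain ⟨e0, he0, hr0⟩ := hall
    have hsd := G.semiD hle
    obtain ⟨ι, i1, e, e1, -, e3⟩ := H.exists_blks43
    refine H.InD_fix (fun X hX1 hX2 hX3 => ?_) hg
    have hX : X ∈ LG (mapC D) := IsMon.contains H (fun Y hY => H.LH_of_com h1 h2 hM hdom hY.com hY.skew hY.tr)
      (fun e he hr => H.tyB_all h1 h2 hM hdom he hr) (M.mon he0 hr0) hsd
      (fun e he hr => nonscalar_of_group (M.big e he (by omega))) ⟨ι, i1, e, e1, e3⟩ ⟨hX1, hX2, hX3⟩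
    exact hX a b t (tate_mono hle ht)
  · intro g hg
    exact IsGalW.tate_fix H (G.toW H hT hdom hgcd) ht hg

end MH
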