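import Pool.Agent.Helper43.GH.TCDefs
import Pool.Agent.Helper48.GH.Fix3

/-!
Project GH (MP_b8862a_ag), type IV: tori of operators with integral weights and a bilinear form.
-/

set_option linter.unusedSectionVars false
set_option linter.unusedVariables false

open Matrix

namespace MH

variable {n : Type*} [Fintype n] [DecidableEq n]

theorem zpow2_inj43 {a b : ℤ} (h : (2 : ℂ) ^ a = 2 ^ b) : a = b := by
  have h1 := congrArg norm h
  rw [norm_zpow, norm_zpow, Complex.norm_ofNat] at h1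
  exact (zpow_right_injective₀ (by norm_num : (0 : ℝ) < 2) (by norm_num : (2 : ℝ) ≠ 1)) h1

theorem det_idem43 {F : Matrix n n ℂ} (hF : F * F = F) (c : ℂ) : (1 + (c - 1) • F).det = c ^ F.rank := by
  obtain ⟨r, W, V, hVW, hWV⟩ := exists_coord48 hF
  have hr : F.rank = r := by
    have h1 := trace_eq_rank hF
    rw [← hWV, Matrix.trace_mul_comm, hVW, Matrix.trace_one, Fintype.card_fin] at h1
    rw [hWV] at h1
    exact_mod_cast h1.symm
  rw [hr, ← hWV]
  have e1 : 1 + (c - 1) • (W * V) = 1 + W * ((c - 1) • V) := by rw [Matrix.mul_smul]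
  rw [e1, Matrix.det_one_add_mul_comm, Matrix.smul_mul, hVW]
  have e2 : (1 : Matrix (Fin r) (Fin r) ℂ) + (c - 1) • (1 : Matrix (Fin r) (Fin r) ℂ) = c • (1 : Matrix (Fin r) (Fin r) ℂ) := by
    rw [sub_smul, one_smul]
    abel
  rw [e2, Matrix.det_smul, Matrix.det_one, mul_one, Fintype.card_fin]

theorem det_fam43 (S : Finset ℤ) {F : ℤ → Matrix n n ℂ} (hF : ∀ p q, F p * F q = if p = q then F p else 0)
    (c : ℤ → ℂ) : (1 + ∑ p ∈ S, (c p - 1) • F p).det = ∏ p ∈ S, c p ^ (F p).rank := by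
  classical
  induction S using Finset.induction_on with
  | empty => simp
  | insert a S ha ih =>
    rw [Finset.sum_insert ha, Finset.prod_insert ha, ← ih, ← det_idem43 (by rw [hF, if_pos rfl]) (c a),
      ← Matrix.det_mul]
    congr 1
    have e1 : (c a - 1) • F a * ∑ p ∈ S, (c p - 1) • F p = 0 := by
      rw [Finset.mul_sum]
      refine Finset.sum_eq_zero fun p hp => ?_
      rw [smul_mul_smul_comm, hF, if_neg (by rintro rfl; exact ha hp), smul_zero]
    rw [add_mul, one_mul, mul_add, mul_one, e1, add_zero]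
    abel

/-- orthogonal idempotents with sum one and the relation with the form -/
structure Dc43 (w : ℤ) (Q : Matrix n n ℂ) (S : Finset ℤ) (F : ℤ → Matrix n n ℂ) : Prop where
  mul : ∀ p q, F p * F q = if p = q then F p else 0
  supp : ∀ p, p ∉ S → F p = 0
  sum : ∑ p ∈ S, F p = 1
  orth : ∀ p q, p + q ≠ w → (F p)ᵀ * Q * F q = 0

/-- the torus -/
noncomputable def ct43 (S : Finset ℤ) (F : ℤ → Matrix n n ℂ) (z : ℂ) : Matrix n n ℂ := ∑ p ∈ S, z ^ p • F p

namespace Dc43

variable {w : ℤ} {Q : Matrix n n ℂ} {S : Finset ℤ} {F : ℤ → Matrix n n ℂ} (D : Dc43 w Q S F)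
include D

theorem ct_mul (z : ℂ) (q : ℤ) : ct43 S F z * F q = z ^ q • F q := by
  unfold ct43
  rw [Finset.sum_mul]
  by_cases hq : q ∈ S
  · rw [Finset.sum_eq_single q]
    · rw [smul_mul_assoc, D.mul, if_pos rfl]
    · intro p _ hp
      rw [smul_mul_assoc, D.mul, if_neg hp, smul_zero]
    · intro h
      exact absurd hq h
  · rw [D.supp q hq]
    simp

theorem mul_ct (z : ℂ) (q : ℤ) : F q * ct43 S F z = z ^ q • F q := by
  unfold ct43
  rw [Finset.mul_sum]
  by_cases hq : q ∈ S
  · rw [Finset.sum_eq_single q]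
    · rw [mul_smul_comm, D.mul, if_pos rfl]
    · intro p _ hp
      rw [mul_smul_comm, D.mul, if_neg (Ne.symm hp), smul_zero]
    · intro h
      exact absurd hq h
  · rw [D.supp q hq]
    simp

theorem ext {X Y : Matrix n n ℂ} (h : ∀ q, X * F q = Y * F q) : X = Y := by
  have h1 : X = X * ∑ p ∈ S, F p := by rw [D.sum, mul_one]
  have h2 : Y = Y * ∑ p ∈ S, F p := by rw [D.sum, mul_one]
  rw [h1, h2, Finset.mul_sum, Finset.mul_sum]
  exact Finset.sum_congr rfl fun q _ => h q

theorem ct_inv {z : ℂ} (hz : z ≠ 0) : ct43 S F z * ct43 S F z⁻¹ = 1 := by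
  refine D.ext fun q => ?_
  rw [mul_assoc, D.ct_mul, mul_smul_comm, D.ct_mul, smul_smul, ← mul_zpow, inv_mul_cancel₀ hz, _root_.one_zpow,
    one_smul, one_mul]

/-- a semi-invariant of the torus is homogeneous -/
theorem homog {T : Matrix n n ℂ} (hT : T ≠ 0) {c : ℂ} (h : ct43 S F 2 * T = c • (T * ct43 S F 2)) :
    ∃ m : ℤ, ∀ q, T * F q = F (q + m) * T := by
  have h20 : (2 : ℂ) ≠ 0 := two_ne_zero
  have key : ∀ p q, F p * T * F q ≠ 0 → (2 : ℂ) ^ p = c * 2 ^ q := by
    intro p q hpq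
    have e1 : F p * (ct43 S F 2 * T) * F q = (2 : ℂ) ^ p • (F p * T * F q) := by
      rw [← mul_assoc, D.mul_ct, smul_mul_assoc, smul_mul_assoc]
    rw [h] at e1
    have e2 : F p * (c • (T * ct43 S F 2)) * F q = (c * 2 ^ q) • (F p * T * F q) := by
      rw [mul_smul_comm, smul_mul_assoc, mul_assoc, mul_assoc T, D.ct_mul, mul_smul_comm, mul_smul_comm, smul_smul,
        mul_assoc]
    rw [e2] at e1
    have e3 : (c * 2 ^ q - (2 : ℂ) ^ p) • (F p * T * F q) = 0 := by rw [sub_smul, e1, sub_self]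
    exact (sub_eq_zero.1 ((smul_eq_zero.1 e3).resolve_right hpq)).symm
  obtain ⟨p0, q0, h0⟩ : ∃ p q, F p * T * F q ≠ 0 := by
    by_contra hcon
    push Not at hcon
    apply hT
    refine D.ext fun q => ?_
    have h1 : T * F q = (∑ p ∈ S, F p) * (T * F q) := by rw [D.sum, one_mul]
    rw [h1, zero_mul, Finset.sum_mul]
    exact Finset.sum_eq_zero fun p _ => by rw [← mul_assoc, hcon]
  have hc := key p0 q0 h0
  have hne : ∀ p q, F p * T * F q ≠ 0 → p = q + (p0 - q0) := by
    intro p q hpq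
    have h1 := key p q hpq
    have h2 : (2 : ℂ) ^ p = 2 ^ (q + (p0 - q0)) := by
      rw [zpow_add₀ h20, zpow_sub₀ h20, hc, h1]
      have : (2 : ℂ) ^ q0 ≠ 0 := zpow_ne_zero _ h20
      field_simp
    exact zpow2_inj43 h2
  refine ⟨p0 - q0, fun q => ?_⟩
  have a1 : T * F q = F (q + (p0 - q0)) * T * F q := by
    have h1 : T * F q = (∑ p ∈ S, F p) * (T * F q) := by rw [D.sum, one_mul]
    rw [h1, Finset.sum_mul]
    by_cases hm : q + (p0 - q0) ∈ S
    · rw [Finset.sum_eq_single (q + (p0 - q0)), mul_assoc]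
      · intro p _ hp
        rw [← mul_assoc]
        by_contra h2
        exact hp (hne p q h2)
      · intro h2
        exact absurd hm h2
    · rw [D.supp _ hm, zero_mul, zero_mul]
      refine Finset.sum_eq_zero fun p hp => ?_
      rw [← mul_assoc]
      by_contra h2
      exact hm (hne p q h2 ▸ hp)
  have a2 : F (q + (p0 - q0)) * T = F (q + (p0 - q0)) * T * F q := by
    have h1 : F (q + (p0 - q0)) * T = F (q + (p0 - q0)) * T * ∑ p ∈ S, F p := by rw [D.sum, mul_one]
    rw [h1, Finset.mul_sum, Finset.sum_mul]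
    by_cases hm : q ∈ S
    · rw [Finset.sum_eq_single q, Finset.sum_eq_single q]
      · rw [mul_assoc (F (q + (p0 - q0)) * T), D.mul, if_pos rfl]
      · intro p _ hp
        rw [mul_assoc (F (q + (p0 - q0)) * T), D.mul, if_neg hp, mul_zero]
      · intro h2
        exact absurd hm h2
      · intro p _ hp
        by_contra h2
        have := hne _ p h2
        exact hp (by omega)
      · intro h2
        exact absurd hm h2
    · rw [D.supp q hm]
      simp only [mul_zero, Finset.sum_const_zero]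
      refine Finset.sum_eq_zero fun p hp => ?_
      by_contra h2
      have := hne _ p h2
      exact hm (by rwa [show q = p by omega])
  rw [a1, ← a2]

/-- a homogeneous operator commutes with the torus up to a factor -/
theorem ct_shift {T : Matrix n n ℂ} {m : ℤ} (h : ∀ q, T * F q = F (q + m) * T) {z : ℂ} (hz : z ≠ 0) :
    ct43 S F z * T = z ^ m • (T * ct43 S F z) := by
  refine D.ext fun q => ?_
  rw [mul_assoc, h, ← mul_assoc, D.ct_mul, smul_mul_assoc, smul_mul_assoc, mul_assoc T, D.ct_mul, mul_smul_comm, h,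
    smul_smul, ← zpow_add₀ hz, add_comm m q]

theorem comm {T : Matrix n n ℂ} (h : ct43 S F 2 * T = T * ct43 S F 2) (q : ℤ) : T * F q = F q * T := by
  rcases eq_or_ne T 0 with h0 | h0
  · rw [h0, zero_mul, mul_zero]
  obtain ⟨m, hm⟩ := D.homog h0 (c := 1) (by rw [h, one_smul])
  have h1 := D.ct_shift hm (z := 2) two_ne_zero
  rw [h] at h1
  have h2 : ((1 : ℂ) - 2 ^ m) • (T * ct43 S F 2) = 0 := by rw [sub_smul, one_smul, ← h1, sub_self]
  rcases smul_eq_zero.1 h2 with h3 | h3
  · have h4 : (2 : ℂ) ^ m = 2 ^ (0 : ℤ) := by rw [zpow_zero]; exact (sub_eq_zero.1 h3).symm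
    have h6 := zpow2_inj43 h4
    have h7 := hm q
    rw [h6, add_zero] at h7
    exact h7
  · exfalso
    apply h0
    have h4 : T * (ct43 S F 2 * ct43 S F 2⁻¹) = 0 := by rw [← mul_assoc, h3, zero_mul]
    rwa [D.ct_inv two_ne_zero, mul_one] at h4

theorem form {z : ℂ} (hz : z ≠ 0) : (ct43 S F z)ᵀ * Q * ct43 S F z = z ^ w • Q := by
  refine D.ext fun q => ?_
  rw [mul_assoc, D.ct_mul, mul_smul_comm]
  -- (F q side): use the transpose on the left
  have h1 : ∀ X : Matrix n n ℂ, (∀ p, (F p)ᵀ * X = 0) → X = 0 := by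
    intro X hX
    have h2 : X = (∑ p ∈ S, (F p)ᵀ) * X := by
      rw [← Matrix.transpose_sum, D.sum, Matrix.transpose_one, one_mul]
    rw [h2, Finset.sum_mul]
    exact Finset.sum_eq_zero fun p _ => hX p
  refine sub_eq_zero.1 (h1 _ fun p => ?_)
  have h3 : (F p)ᵀ * (ct43 S F z)ᵀ = z ^ p • (F p)ᵀ := by
    rw [← Matrix.transpose_mul, D.ct_mul, Matrix.transpose_smul]
  rw [mul_sub, mul_smul_comm, ← mul_assoc, ← mul_assoc, h3, smul_mul_assoc, smul_mul_assoc, smul_mul_assoc,
    mul_smul_comm, ← mul_assoc, smul_smul, ← sub_smul, ← zpow_add₀ hz]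
  by_cases hpq : p + q = w
  · rw [show q + p = w by omega, sub_self, zero_smul]
  · rw [D.orth p q hpq, smul_zero]

theorem det {e : Matrix n n ℂ} (he : e * e = e) (hc : ∀ q, e * F q = F q * e) (z : ℂ) :
    (ct43 S F z * e + (1 - e)).det = ∏ p ∈ S, (z ^ p) ^ (e * F p).rank := by
  have h1 : ct43 S F z * e + (1 - e) = 1 + ∑ p ∈ S, (z ^ p - 1) • (e * F p) := by
    have h2 : ∑ p ∈ S, (z ^ p - 1) • (e * F p) = ct43 S F z * e - e := by
      have h3 : e = ∑ p ∈ S, e * F p := by rw [← Finset.mul_sum, D.sum, mul_one]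
      have h4 : ct43 S F z * e = ∑ p ∈ S, z ^ p • (e * F p) := by
        unfold ct43
        rw [Finset.sum_mul]
        exact Finset.sum_congr rfl fun p _ => by rw [smul_mul_assoc, hc]
      rw [h4]
      conv_rhs => rw [h3]
      rw [← Finset.sum_sub_distrib]
      refine Finset.sum_congr rfl fun p _ => ?_
      rw [sub_smul, one_smul, ← Finset.mul_sum, D.sum, mul_one]
    rw [h2]
    abel
  rw [h1, det_fam43 S (F := fun p => e * F p) _ (fun p => z ^ p)]
  intro p q
  have h2 : e * F p * (e * F q) = e * (F p * F q) := by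
    calc e * F p * (e * F q) = e * (F p * e) * F q := by simp only [mul_assoc]
      _ = (e * e) * (F p * F q) := by rw [← hc]; simp only [mul_assoc]
      _ = _ := by rw [he]
  rw [h2, D.mul]
  split_ifs <;> simp

end Dc43

end MH
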