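import Pool.Agent.Helper43.GH.TC1

/-!
Project GH (MP_b8862a_ag), type IV: semi-invariants of the Galois group and of the Mumford-Tate group.
-/

set_option linter.unusedSectionVars false
set_option linter.unusedVariables false

open Matrix

namespace MH

variable {n : Type*} [Fintype n] [DecidableEq n]

/-- the projection to the first of two complementary subspaces -/
theorem proj_compl43 {W W' : Submodule ℂ (n → ℂ)} (h : IsCompl W W') : ∃ p : Matrix n n ℂ, (∀ v ∈ W, p *ᵥ v = v) ∧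
    (∀ v ∈ W', p *ᵥ v = 0) ∧ ∀ v, p *ᵥ v ∈ W := by
  refine ⟨LinearMap.toMatrix' (W.subtype ∘ₗ Submodule.projectionOnto W W' h), ?_, ?_, ?_⟩
  · intro v hv
    rw [← Matrix.toLin'_apply, Matrix.toLin'_toMatrix', LinearMap.comp_apply,
      Submodule.projectionOnto_apply_left h ⟨v, hv⟩]
    rfl
  · intro v hv
    rw [← Matrix.toLin'_apply, Matrix.toLin'_toMatrix', LinearMap.comp_apply,
      Submodule.projectionOnto_apply_right h ⟨v, hv⟩]
    rfl
  · intro v
    rw [← Matrix.toLin'_apply, Matrix.toLin'_toMatrix', LinearMap.comp_apply]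
    exact Submodule.coe_mem _

theorem ext_compl43 {W W' : Submodule ℂ (n → ℂ)} (h : IsCompl W W') {A B : Matrix n n ℂ}
    (h1 : ∀ v ∈ W, A *ᵥ v = B *ᵥ v) (h2 : ∀ v ∈ W', A *ᵥ v = B *ᵥ v) : A = B := by
  apply Matrix.toLin'.injective
  apply LinearMap.ext
  intro v
  rw [Matrix.toLin'_apply, Matrix.toLin'_apply]
  obtain ⟨a, ha, b, hb, rfl⟩ := Submodule.mem_sup.1 (h.sup_eq_top ▸ Submodule.mem_top : v ∈ W ⊔ W')
  rw [Matrix.mulVec_add, Matrix.mulVec_add, h1 a ha, h2 b hb]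

/-- a generalised inverse -/
theorem ginv43 (T : Matrix n n ℂ) : ∃ G : Matrix n n ℂ, T * G * T = T := by
  obtain ⟨g, hg⟩ := LinearMap.exists_rightInverse_of_surjective (Matrix.toLin' T).rangeRestrict
    (LinearMap.range_rangeRestrict _)
  obtain ⟨g', hg'⟩ := LinearMap.exists_extend g
  refine ⟨LinearMap.toMatrix' g', ?_⟩
  apply Matrix.toLin'.injective
  apply LinearMap.ext
  intro v
  rw [Matrix.toLin'_mul, Matrix.toLin'_mul, Matrix.toLin'_toMatrix', LinearMap.comp_apply, LinearMap.comp_apply]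
  have h1 : g' (Matrix.toLin' T v) = g ((Matrix.toLin' T).rangeRestrict v) := by
    rw [← hg']
    rfl
  rw [h1]
  have h2 := LinearMap.congr_fun hg ((Matrix.toLin' T).rangeRestrict v)
  have h3 := congrArg Subtype.val h2
  exact h3

/-- a semi-invariant of a semisimple group has a semi-invariant generalised inverse -/
theorem pinv43 {Γ : Subgroup (GL n ℂ)} (hss : ∀ W : Submodule ℂ (n → ℂ),
    (∀ g ∈ Γ, ∀ w ∈ W, (g : Matrix n n ℂ) *ᵥ w ∈ W) →
    ∃ W' : Submodule ℂ (n → ℂ), (∀ g ∈ Γ, ∀ w ∈ W', (g : Matrix n n ℂ) *ᵥ w ∈ W') ∧ IsCompl W W')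
    {T : Matrix n n ℂ} (hT : ∀ g ∈ Γ, ∃ c : ℂ, c ≠ 0 ∧ (g : Matrix n n ℂ) * T = c • (T * (g : Matrix n n ℂ))) :
    ∃ T' : Matrix n n ℂ, T * T' * T = T ∧ T' * T * T' = T' ∧
      (∀ g ∈ Γ, (g : Matrix n n ℂ) * (T' * T) = T' * T * (g : Matrix n n ℂ)) ∧
      (∀ g ∈ Γ, (g : Matrix n n ℂ) * (T * T') = T * T' * (g : Matrix n n ℂ)) := by
  obtain ⟨G, hG⟩ := ginv43 T
  -- the kernel and a complement
  obtain ⟨U, hU, hUc⟩ := hss (LinearMap.ker T.mulVecLin) (by
    intro g hg v hv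
    rw [LinearMap.mem_ker, Matrix.mulVecLin_apply] at hv ⊢
    obtain ⟨c, hc, h1⟩ := hT g hg
    have h2 : c • (T *ᵥ ((g : Matrix n n ℂ) *ᵥ v)) = 0 := by
      rw [Matrix.mulVec_mulVec, ← Matrix.smul_mulVec, ← h1, ← Matrix.mulVec_mulVec, hv, Matrix.mulVec_zero]
    exact (smul_eq_zero.1 h2).resolve_left hc)
  obtain ⟨Z, hZ, hZc⟩ := hss (LinearMap.range T.mulVecLin) (by
    rintro g hg _ ⟨v, rfl⟩
    obtain ⟨c, hc, h1⟩ := hT g hg
    refine ⟨c • ((g : Matrix n n ℂ) *ᵥ v), ?_⟩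
    rw [map_smul, Matrix.mulVecLin_apply, Matrix.mulVecLin_apply, Matrix.mulVec_mulVec, Matrix.mulVec_mulVec, h1,
      Matrix.smul_mulVec])
  obtain ⟨p, p1, p2, p3⟩ := proj_compl43 hUc.symm
  obtain ⟨q, q1, q2, q3⟩ := proj_compl43 hZc
  have hker : ∀ g ∈ Γ, ∀ v ∈ LinearMap.ker T.mulVecLin, (g : Matrix n n ℂ) *ᵥ v ∈ LinearMap.ker T.mulVecLin := by
    intro g hg v hv
    rw [LinearMap.mem_ker, Matrix.mulVecLin_apply] at hv ⊢
    obtain ⟨c, hc, h1⟩ := hT g hg
    have h2 : c • (T *ᵥ ((g : Matrix n n ℂ) *ᵥ v)) = 0 := by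
      rw [Matrix.mulVec_mulVec, ← Matrix.smul_mulVec, ← h1, ← Matrix.mulVec_mulVec, hv, Matrix.mulVec_zero]
    exact (smul_eq_zero.1 h2).resolve_left hc
  have hran : ∀ g ∈ Γ, ∀ v ∈ LinearMap.range T.mulVecLin, (g : Matrix n n ℂ) *ᵥ v ∈ LinearMap.range T.mulVecLin := by
    rintro g hg _ ⟨v, rfl⟩
    obtain ⟨c, hc, h1⟩ := hT g hg
    refine ⟨c • ((g : Matrix n n ℂ) *ᵥ v), ?_⟩
    rw [map_smul, Matrix.mulVecLin_apply, Matrix.mulVecLin_apply, Matrix.mulVec_mulVec, Matrix.mulVec_mulVec, h1,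
      Matrix.smul_mulVec]
  have hTp : T * p = T := by
    refine ext_compl43 hUc.symm (fun v hv => ?_) (fun v hv => ?_)
    · rw [← Matrix.mulVec_mulVec, p1 v hv]
    · rw [← Matrix.mulVec_mulVec, p2 v hv, Matrix.mulVec_zero]
      rw [LinearMap.mem_ker, Matrix.mulVecLin_apply] at hv
      exact hv.symm
  have hqT : q * T = T := by
    apply Matrix.toLin'.injective
    apply LinearMap.ext
    intro v
    rw [Matrix.toLin'_apply, Matrix.toLin'_apply, ← Matrix.mulVec_mulVec]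
    exact q1 _ ⟨v, rfl⟩
  have hpGT : p * G * T = p := by
    refine ext_compl43 hUc.symm (fun v hv => ?_) (fun v hv => ?_)
    · -- `G T v - v` is in the kernel
      have h1 : T *ᵥ (G *ᵥ (T *ᵥ v) - v) = 0 := by
        rw [Matrix.mulVec_sub, Matrix.mulVec_mulVec, Matrix.mulVec_mulVec, hG, sub_self]
      have h2 := p2 _ (show G *ᵥ (T *ᵥ v) - v ∈ LinearMap.ker T.mulVecLin from h1)
      rw [Matrix.mulVec_sub, sub_eq_zero] at h2
      rw [← Matrix.mulVec_mulVec, ← Matrix.mulVec_mulVec, h2]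
    · rw [LinearMap.mem_ker, Matrix.mulVecLin_apply] at hv
      rw [← Matrix.mulVec_mulVec, hv, Matrix.mulVec_zero, p2 v (by rw [LinearMap.mem_ker, Matrix.mulVecLin_apply, hv])]
  have hTGq : T * G * q = q := by
    apply Matrix.toLin'.injective
    apply LinearMap.ext
    intro v
    rw [Matrix.toLin'_apply, Matrix.toLin'_apply]
    obtain ⟨u, hu⟩ := q3 v
    rw [Matrix.mulVecLin_apply] at hu
    rw [← Matrix.mulVec_mulVec, ← hu, Matrix.mulVec_mulVec, hG]
  have hpp : p * p = p := by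
    calc p * p = p * G * T * p := by rw [hpGT]
      _ = p * G * (T * p) := by rw [mul_assoc]
      _ = p := by rw [hTp, hpGT]
  have hqq : q * q = q := by
    calc q * q = q * (T * G * q) := by rw [hTGq]
      _ = q * T * G * q := by simp only [mul_assoc]
      _ = q := by rw [hqT, hTGq]
  have hpT : p * G * q * T = p := by rw [mul_assoc, hqT, hpGT]
  have hTq : T * (p * G * q) = q := by rw [← mul_assoc, ← mul_assoc, hTp, hTGq]
  have hcp : ∀ g ∈ Γ, (g : Matrix n n ℂ) * p = p * (g : Matrix n n ℂ) := by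
    intro g hg
    refine ext_compl43 hUc.symm (fun v hv => ?_) (fun v hv => ?_)
    · rw [← Matrix.mulVec_mulVec, ← Matrix.mulVec_mulVec, p1 v hv, p1 _ (hU g hg v hv)]
    · rw [← Matrix.mulVec_mulVec, ← Matrix.mulVec_mulVec, p2 v hv, p2 _ (hker g hg v hv), Matrix.mulVec_zero]
  have hcq : ∀ g ∈ Γ, (g : Matrix n n ℂ) * q = q * (g : Matrix n n ℂ) := by
    intro g hg
    refine ext_compl43 hZc (fun v hv => ?_) (fun v hv => ?_)
    · rw [← Matrix.mulVec_mulVec, ← Matrix.mulVec_mulVec, q1 v hv, q1 _ (hran g hg v hv)]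
    · rw [← Matrix.mulVec_mulVec, ← Matrix.mulVec_mulVec, q2 v hv, q2 _ (hZ g hg v hv), Matrix.mulVec_zero]
  refine ⟨p * G * q, ?_, ?_, ?_, ?_⟩
  · rw [mul_assoc, hpT, hTp]
  · rw [hpT, ← mul_assoc, ← mul_assoc, hpp]
  · rw [hpT]
    exact hcp
  · rw [hTq]
    exact hcq

/-- the generalised inverse is a semi-invariant with the inverse factor -/
theorem pinv_semi43 {T T' g : Matrix n n ℂ} {c : ℂ} (h1 : T * T' * T = T) (h2 : T' * T * T' = T')
    (h3 : g * (T' * T) = T' * T * g) (h4 : g * (T * T') = T * T' * g) (hc : g * T = c • (T * g)) :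
    T' * g = c • (g * T') := by
  calc T' * g = T' * T * T' * g := by rw [h2]
    _ = T' * (T * T' * g) := by simp only [mul_assoc]
    _ = T' * (g * (T * T')) := by rw [h4]
    _ = T' * (g * T) * T' := by simp only [mul_assoc]
    _ = c • (T' * T * g * T') := by rw [hc, mul_smul_comm, smul_mul_assoc, ← mul_assoc]
    _ = c • (g * (T' * T) * T') := by rw [h3]
    _ = c • (g * T') := by rw [mul_assoc, h2]

end MH
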