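import Pool.Agent.Helper43.GH.TC3

/-!
Project GH (MP_b8862a_ag), type IV: the Tate tensors and the tensors fixed by the Mumford-Tate group.
-/

set_option linter.unusedSectionVars false
set_option linter.unusedVariables false

open Matrix

namespace MH

variable {n : Type*} [Fintype n] [DecidableEq n]
variable {w : ℤ} {Q : Matrix n n ℚ} {S : Finset ℤ} {P : ℤ → Matrix n n ℂ} {Γ : Subgroup (GL n ℂ)}

/-- a function with finite support is not periodic -/
theorem shift_unique43 {f g : ℤ → ℂ} {S : Finset ℤ} (hf : ∀ p, p ∉ S → f p = 0) (hne : ∃ p, f p ≠ 0) {m m' : ℤ}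
    (h1 : ∀ k, g (k + m) = f k) (h2 : ∀ k, g (k + m') = f k) : m = m' := by
  by_contra hmm
  have hper : ∀ k, f (k + (m - m')) = f k := by
    intro k
    rw [← h2 (k + (m - m')), ← h1 k]
    congr 1
    ring
  have hperN : ∀ (j : ℕ) k, f (k + j * (m - m')) = f k := by
    intro j
    induction j with
    | zero => intro k; simp
    | succ j ih =>
      intro k
      have := hper (k + j * (m - m'))
      rw [ih] at this
      rw [← this]
      congr 1
      push_cast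
      ring
  obtain ⟨p, hp⟩ := hne
  have hinj : Function.Injective fun j : ℕ => p + j * (m - m') := by
    intro i j hij
    have h3 : (i : ℤ) * (m - m') = j * (m - m') := by simpa using hij
    have h4 := mul_right_cancel₀ (sub_ne_zero.2 hmm) h3
    exact_mod_cast h4
  have hfin : Set.Finite (Set.range fun j : ℕ => p + j * (m - m')) := by
    refine (S.finite_toSet).subset ?_
    rintro _ ⟨j, rfl⟩
    by_contra h3
    exact hp (by rw [← hperN j p]; exact hf _ h3)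
  exact Set.infinite_range_of_injective hinj hfin

/-- a semi-invariant has the same shift for the two tori -/
theorem IsGalN.shift43 (H : IsHW w Q S P) (G : IsGalN w Q S P Γ) {σ : ℂ ≃+* ℂ} {S' : Finset ℤ} {R : ℤ → Matrix n n ℂ}
    (hR : IsHTs w Q S P Γ σ S' R) {T : Matrix n n ℂ} (hT : SI S P T) :
    ∃ m : ℤ, (∀ q, T * R q = R (q + m) * T) ∧ ∀ q, T * (P q).map σ = (P (q + m)).map σ * T := by
  rcases eq_or_ne T 0 with hT0 | hT0
  · exact ⟨0, fun q => by rw [hT0, zero_mul, mul_zero], fun q => by rw [hT0, zero_mul, mul_zero]⟩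
  obtain ⟨B, Bi, Qi, h1, h2, -, -, hM⟩ := H.exists_basis
  obtain ⟨T', hT'⟩ : ∃ T', T' = dg w Q S P Bi T := ⟨_, rfl⟩
  have hTT : (T * T').trace ≠ 0 := by rw [hT']; exact dg_pos h1 h2 hM hT0
  have hTT' : (T' * T).trace ≠ 0 := by rw [Matrix.trace_mul_comm]; exact hTT
  have hSI' : SI S P T' := by rw [hT']; exact H.SI_dg h1 h2 hM hT
  have hT0' : T' ≠ 0 := by
    intro h
    rw [h, mul_zero, Matrix.trace_zero] at hTT
    exact hTT rfl
  have hp0 : T' * T ≠ 0 := by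
    intro h
    rw [h, Matrix.trace_zero] at hTT'
    exact hTT' rfl
  -- the two products are endomorphisms
  have hadj : ∀ σ : ℂ ≃+* ℂ, ∃ c : ℂ, (hw w S P).map σ * T - T * (hw w S P).map σ = c • T ∧
      (hw w S P).map σ * T' - T' * (hw w S P).map σ = -(c • T') := by
    intro σ
    obtain ⟨c, hc⟩ := H.SI_iff.1 hT σ
    refine ⟨c, hc, ?_⟩
    rw [hT']
    exact H.SIh_adj h1 h2 hM (H.SI_iff.1 hT) σ hc
  have c1 : T' * T ∈ EC P := by
    refine H.descent fun σ => ?_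
    obtain ⟨c, e1, e2⟩ := hadj σ
    have e3 : (hw w S P).map σ * (T' * T) - T' * T * (hw w S P).map σ =
        ((hw w S P).map σ * T' - T' * (hw w S P).map σ) * T + T' * ((hw w S P).map σ * T - T * (hw w S P).map σ) := by
      noncomm_ring
    rw [e1, e2, neg_mul, smul_mul_assoc, mul_smul_comm, neg_add_cancel] at e3
    exact (sub_eq_zero.1 e3).symm
  have c2 : T * T' ∈ EC P := by
    refine H.descent fun σ => ?_
    obtain ⟨c, e1, e2⟩ := hadj σ
    have e3 : (hw w S P).map σ * (T * T') - T * T' * (hw w S P).map σ =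
        ((hw w S P).map σ * T - T * (hw w S P).map σ) * T' + T * ((hw w S P).map σ * T' - T' * (hw w S P).map σ) := by
      noncomm_ring
    rw [e1, e2, mul_neg, smul_mul_assoc, mul_smul_comm, add_neg_cancel] at e3
    exact (sub_eq_zero.1 e3).symm
  obtain ⟨Γ', a1, a2, a3⟩ := G.semi'
  have hfac : ∀ g ∈ Γ', ∃ c d : ℂ, d * c = 1 ∧ (g : Matrix n n ℂ) * T = c • (T * (g : Matrix n n ℂ)) ∧
      (g : Matrix n n ℂ) * T' = d • (T' * (g : Matrix n n ℂ)) := by
    intro g hg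
    obtain ⟨c, hc⟩ := a3 g hg T hT
    obtain ⟨d, hd⟩ := a3 g hg T' hSI'
    refine ⟨c, d, ?_, hc, hd⟩
    have e1 := comm_of_semi43 H (a3 g hg) c1
    have e2 : (g : Matrix n n ℂ) * (T' * T) = (d * c) • (T' * T * (g : Matrix n n ℂ)) := by
      rw [← mul_assoc, hd, smul_mul_assoc, mul_assoc, hc, mul_smul_comm, smul_smul, ← mul_assoc]
    have e3 : (d * c - 1) • (T' * T * (g : Matrix n n ℂ)) = 0 := by
      rw [sub_smul, ← e2, one_smul, e1, sub_self]
    have e4 : T' * T * (g : Matrix n n ℂ) ≠ 0 := by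
      intro h
      apply hp0
      calc T' * T = T' * T * (g : Matrix n n ℂ) * ((g⁻¹ : GL n ℂ) : Matrix n n ℂ) := by
            rw [mul_assoc (T' * T), ← Units.val_mul, mul_inv_cancel, Units.val_one, mul_one]
        _ = 0 := by rw [h, zero_mul]
    exact sub_eq_zero.1 ((smul_eq_zero.1 e3).resolve_right e4)
  obtain ⟨m, hm⟩ := hR.toIsHTw.homog43 a1 a2 hT0 hT0' hfac
  obtain ⟨m', hm'⟩ := H.homog43 σ hT0 hT
  have tr1 : ∀ (F : ℤ → Matrix n n ℂ) (m : ℤ), (∀ q, T * F q = F (q + m) * T) → ∀ k,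
      (T * T' * F (k + m)).trace = (T' * T * F k).trace := by
    intro F m hF k
    calc (T * T' * F (k + m)).trace = (T * (T' * F (k + m))).trace := by rw [mul_assoc]
      _ = (T' * F (k + m) * T).trace := Matrix.trace_mul_comm _ _
      _ = (T' * (F (k + m) * T)).trace := by rw [mul_assoc]
      _ = (T' * (T * F k)).trace := by rw [hF]
      _ = _ := by rw [mul_assoc]
  have heq : m = m' := by
    refine shift_unique43 (f := fun k => (T' * T * R k).trace) (g := fun k => (T * T' * R k).trace) (S := S') ?_ ?_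
      (tr1 R m hm) ?_
    · intro p hp
      simp only [hR.supp p hp, mul_zero, Matrix.trace_zero]
    · by_contra hcon
      push Not at hcon
      apply hTT'
      have h2 : T' * T = ∑ p ∈ S', T' * T * R p := by rw [← Finset.mul_sum, hR.sum, mul_one]
      rw [h2, Matrix.trace_sum]
      exact Finset.sum_eq_zero fun p _ => hcon p
    · intro k
      have h1 : (T * T' * (P (k + m')).map σ).trace = (T' * T * (P k).map σ).trace :=
        tr1 (fun p => (P p).map σ) m' hm' k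
      rw [hR.tr43 H (G.comm H) c2, hR.tr43 H (G.comm H) c1, h1]
  subst heq
  exact ⟨m, hm, hm'⟩

/-- the quotient of the two tori is in the derived group -/
theorem IsGalN.InD43 (H : IsHW w Q S P) (G : IsGalN w Q S P Γ) {σ : ℂ ≃+* ℂ} {S' : Finset ℤ} {R : ℤ → Matrix n n ℂ}
    (hR : IsHTs w Q S P Γ σ S' R) {z : ℂ} (hz : z ≠ 0) :
    InD Q S P (ct43 S (fun p => (P p).map σ) z * ct43 S' R z⁻¹) := by
  classical
  have hz' := inv_ne_zero hz
  have D := hR.toIsHTw.dc43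
  have D' := H.dc43 σ
  refine ⟨fun T hT => ?_, ?_, fun e he => ?_⟩
  · obtain ⟨m, h1, h2⟩ := G.shift43 H hR hT
    rw [mul_assoc, D.ct_shift h1 hz', mul_smul_comm, ← mul_assoc, D'.ct_shift h2 hz, smul_mul_assoc, smul_smul,
      ← mul_zpow, inv_mul_cancel₀ hz, _root_.one_zpow, one_smul, mul_assoc]
  · have h1 := D'.form hz
    have h2 := D.form hz'
    rw [Matrix.transpose_mul]
    calc (ct43 S' R z⁻¹)ᵀ * (ct43 S (fun p => (P p).map σ) z)ᵀ * toC Q * (ct43 S (fun p => (P p).map σ) z * ct43 S' R z⁻¹)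
        = (ct43 S' R z⁻¹)ᵀ * ((ct43 S (fun p => (P p).map σ) z)ᵀ * toC Q * ct43 S (fun p => (P p).map σ) z) *
          ct43 S' R z⁻¹ := by simp only [mul_assoc]
      _ = z ^ w • ((ct43 S' R z⁻¹)ᵀ * toC Q * ct43 S' R z⁻¹) := by rw [h1, mul_smul_comm, smul_mul_assoc]
      _ = toC Q := by rw [h2, smul_smul, ← mul_zpow, mul_inv_cancel₀ hz, _root_.one_zpow, one_smul]
  · have c1 : ∀ q, e * R q = R q * e := fun q => hR.toIsHTw.EC_R43 (G.comm H) he.mem q
    have c2 : ∀ q, e * (P q).map σ = (P q).map σ * e := fun q => EC_Pσ43 he.mem σ q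
    have hce : ct43 S' R z⁻¹ * e = e * ct43 S' R z⁻¹ := by
      unfold ct43
      rw [Finset.sum_mul, Finset.mul_sum]
      exact Finset.sum_congr rfl fun p _ => by rw [smul_mul_assoc, mul_smul_comm, c1]
    have h1 : ct43 S (fun p => (P p).map σ) z * ct43 S' R z⁻¹ * e + (1 - e) =
        (ct43 S (fun p => (P p).map σ) z * e + (1 - e)) * (ct43 S' R z⁻¹ * e + (1 - e)) := by
      have hee := he.idem
      have x1 : ct43 S (fun p => (P p).map σ) z * e * (ct43 S' R z⁻¹ * e) =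
          ct43 S (fun p => (P p).map σ) z * ct43 S' R z⁻¹ * e := by
        rw [hce]
        calc ct43 S (fun p => (P p).map σ) z * e * (e * ct43 S' R z⁻¹)
            = ct43 S (fun p => (P p).map σ) z * ((e * e) * ct43 S' R z⁻¹) := by simp only [mul_assoc]
          _ = _ := by rw [hee, ← hce, mul_assoc]
      have x2 : ct43 S (fun p => (P p).map σ) z * e * (1 - e) = 0 := by
        rw [mul_assoc, mul_sub, mul_one, hee, sub_self, mul_zero]
      have x3 : (1 - e) * (ct43 S' R z⁻¹ * e) = 0 := by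
        rw [hce, ← mul_assoc, sub_mul, one_mul, hee, sub_self, zero_mul]
      have x4 : (1 - e) * (1 - e) = 1 - e := by
        rw [sub_mul, one_mul, mul_sub, mul_one, hee]
        abel
      rw [mul_add, add_mul, add_mul, x1, x2, x3, x4]
      abel
    rw [h1, Matrix.det_mul, D'.det he.idem c2 z, D.det he.idem c1 z⁻¹]
    -- both products over the union
    have e1 : ∏ p ∈ S, (z ^ p) ^ (e * (P p).map σ).rank = ∏ p ∈ S ∪ S', (z ^ p) ^ (e * (P p).map σ).rank := by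
      refine Finset.prod_subset Finset.subset_union_left fun p _ hp => ?_
      have : (P p).map σ = 0 := D'.supp p hp
      rw [this, mul_zero, Matrix.rank_zero, pow_zero]
    have e2 : ∏ p ∈ S', (z⁻¹ ^ p) ^ (e * R p).rank = ∏ p ∈ S ∪ S', (z⁻¹ ^ p) ^ (e * R p).rank := by
      refine Finset.prod_subset Finset.subset_union_right fun p _ hp => ?_
      rw [hR.supp p hp, mul_zero, Matrix.rank_zero, pow_zero]
    rw [e1, e2, ← Finset.prod_mul_distrib]
    refine Finset.prod_eq_one fun p _ => ?_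
    rw [hR.rank e he p, ← mul_pow, ← mul_zpow, mul_inv_cancel₀ hz, _root_.one_zpow, one_pow]

/-- the action of a product -/
theorem act_mul43 {a b : ℕ} (g h : GL n ℂ) (t : (Fin a ⊕ Fin b → n) → ℂ) :
    actF (slot a b ((g * h : GL n ℂ) : Matrix n n ℂ) (((g * h)⁻¹ : GL n ℂ) : Matrix n n ℂ)) t =
      actF (slot a b (g : Matrix n n ℂ) ((g⁻¹ : GL n ℂ) : Matrix n n ℂ))
        (actF (slot a b (h : Matrix n n ℂ) ((h⁻¹ : GL n ℂ) : Matrix n n ℂ)) t) := by
  rw [actF_mul]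
  congr 1
  funext k
  rcases k with k | k
  · rfl
  · simp only [slot, Sum.elim_inr, _root_.mul_inv_rev, Units.val_mul, Matrix.transpose_mul]

/-- the factor of a semi-invariant -/
def Sf43 (Q : Matrix n n ℚ) (S : Finset ℤ) (P : ℤ → Matrix n n ℂ) (g : GL n ℂ) : Prop :=
  (∀ T, SI S P T → ∃ c : ℂ, (g : Matrix n n ℂ) * T = c • (T * (g : Matrix n n ℂ))) ∧
    (∃ c : ℂ, (g : Matrix n n ℂ)ᵀ * toC Q * (g : Matrix n n ℂ) = c • toC Q) ∧
    ∀ e, IsBlk P e → (g : Matrix n n ℂ) * e = e * (g : Matrix n n ℂ)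

theorem fac_ne43 {g : GL n ℂ} {T : Matrix n n ℂ} (hT : T ≠ 0) {c : ℂ}
    (h : (g : Matrix n n ℂ) * T = c • (T * (g : Matrix n n ℂ))) : c ≠ 0 := by
  rintro rfl
  apply hT
  rw [zero_smul] at h
  calc T = ((g⁻¹ : GL n ℂ) : Matrix n n ℂ) * ((g : Matrix n n ℂ) * T) := by
        rw [← mul_assoc, ← Units.val_mul, inv_mul_cancel, Units.val_one, one_mul]
    _ = 0 := by rw [h, mul_zero]

theorem fac_inv43 {g : GL n ℂ} {T : Matrix n n ℂ} {c : ℂ} (hc : c ≠ 0)
    (h : (g : Matrix n n ℂ) * T = c • (T * (g : Matrix n n ℂ))) :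
    ((g⁻¹ : GL n ℂ) : Matrix n n ℂ) * T = c⁻¹ • (T * ((g⁻¹ : GL n ℂ) : Matrix n n ℂ)) := by
  have h1 : (g : Matrix n n ℂ) * ((g⁻¹ : GL n ℂ) : Matrix n n ℂ) = 1 := by
    rw [← Units.val_mul, mul_inv_cancel, Units.val_one]
  have h2 : ((g⁻¹ : GL n ℂ) : Matrix n n ℂ) * (g : Matrix n n ℂ) = 1 := by
    rw [← Units.val_mul, inv_mul_cancel, Units.val_one]
  have h3 : T * ((g⁻¹ : GL n ℂ) : Matrix n n ℂ) = c • (((g⁻¹ : GL n ℂ) : Matrix n n ℂ) * T) := by
    calc T * ((g⁻¹ : GL n ℂ) : Matrix n n ℂ)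
        = ((g⁻¹ : GL n ℂ) : Matrix n n ℂ) * ((g : Matrix n n ℂ) * T) * ((g⁻¹ : GL n ℂ) : Matrix n n ℂ) := by
          rw [← mul_assoc, h2, one_mul]
      _ = c • (((g⁻¹ : GL n ℂ) : Matrix n n ℂ) * T * ((g : Matrix n n ℂ) * ((g⁻¹ : GL n ℂ) : Matrix n n ℂ))) := by
          rw [h, mul_smul_comm, smul_mul_assoc]
          simp only [mul_assoc]
      _ = _ := by rw [h1, mul_one]
  rw [h3, smul_smul, inv_mul_cancel₀ hc, one_smul]

/-- the commutators are in the derived group -/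
theorem InD_comm43 (H : IsHW w Q S P) {g h : GL n ℂ} (hg : Sf43 Q S P g) (hh : Sf43 Q S P h) :
    InD Q S P ((g * h * g⁻¹ * h⁻¹ : GL n ℂ) : Matrix n n ℂ) := by
  obtain ⟨B, Bi, Qi, -, -, q1, q2, -⟩ := H.exists_basis
  simp only [Units.val_mul]
  have i1 : (g : Matrix n n ℂ) * ((g⁻¹ : GL n ℂ) : Matrix n n ℂ) = 1 := by
    rw [← Units.val_mul, mul_inv_cancel, Units.val_one]
  have i2 : (h : Matrix n n ℂ) * ((h⁻¹ : GL n ℂ) : Matrix n n ℂ) = 1 := by
    rw [← Units.val_mul, mul_inv_cancel, Units.val_one]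
  refine ⟨fun T hT => ?_, ?_, fun e he => ?_⟩
  · rcases eq_or_ne T 0 with hT0 | hT0
    · rw [hT0, zero_mul, mul_zero]
    obtain ⟨c, hc⟩ := hg.1 T hT
    obtain ⟨d, hd⟩ := hh.1 T hT
    have c0 := fac_ne43 hT0 hc
    have d0 := fac_ne43 hT0 hd
    have hc' := fac_inv43 c0 hc
    have hd' := fac_inv43 d0 hd
    rw [mul_assoc, hd', mul_smul_comm, mul_assoc, ← mul_assoc _ T, hc', smul_mul_assoc, mul_smul_comm, mul_assoc,
      mul_assoc T, ← mul_assoc (h : Matrix n n ℂ) T, hd, smul_mul_assoc, mul_smul_comm, mul_assoc T,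
      ← mul_assoc (g : Matrix n n ℂ) T, hc, smul_mul_assoc, smul_smul, smul_smul, smul_smul]
    have e1 : d⁻¹ * c⁻¹ * d * c = 1 := by field_simp
    rw [e1, one_smul]
    simp only [mul_assoc]
  · rcases isEmpty_or_nonempty n with hn | hn
    · exact Subsingleton.elim _ _
    obtain ⟨c, hc⟩ := hg.2.1
    obtain ⟨d, hd⟩ := hh.2.1
    have Q0 : toC Q ≠ 0 := by
      intro h0
      rw [h0, zero_mul] at q1
      exact zero_ne_one q1
    have inv : ∀ {g : GL n ℂ} {c : ℂ}, (g : Matrix n n ℂ)ᵀ * toC Q * (g : Matrix n n ℂ) = c • toC Q → c ≠ 0 ∧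
        ((g⁻¹ : GL n ℂ) : Matrix n n ℂ)ᵀ * toC Q * ((g⁻¹ : GL n ℂ) : Matrix n n ℂ) = c⁻¹ • toC Q := by
      intro g c hc
      have j1 : (g : Matrix n n ℂ) * ((g⁻¹ : GL n ℂ) : Matrix n n ℂ) = 1 := by
        rw [← Units.val_mul, mul_inv_cancel, Units.val_one]
      have j2 : ((g⁻¹ : GL n ℂ) : Matrix n n ℂ)ᵀ * (g : Matrix n n ℂ)ᵀ = 1 := by
        rw [← Matrix.transpose_mul, j1, Matrix.transpose_one]
      have e1 : toC Q = c • (((g⁻¹ : GL n ℂ) : Matrix n n ℂ)ᵀ * toC Q * ((g⁻¹ : GL n ℂ) : Matrix n n ℂ)) := by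
        calc toC Q = (((g⁻¹ : GL n ℂ) : Matrix n n ℂ)ᵀ * (g : Matrix n n ℂ)ᵀ) * toC Q *
              ((g : Matrix n n ℂ) * ((g⁻¹ : GL n ℂ) : Matrix n n ℂ)) := by rw [j1, j2, one_mul, mul_one]
          _ = ((g⁻¹ : GL n ℂ) : Matrix n n ℂ)ᵀ * ((g : Matrix n n ℂ)ᵀ * toC Q * (g : Matrix n n ℂ)) *
              ((g⁻¹ : GL n ℂ) : Matrix n n ℂ) := by simp only [mul_assoc]
          _ = _ := by rw [hc, mul_smul_comm, smul_mul_assoc]
      have c0 : c ≠ 0 := by
        rintro rfl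
        rw [zero_smul] at e1
        exact Q0 e1
      refine ⟨c0, ?_⟩
      rw [show c⁻¹ • toC Q = c⁻¹ • (c • (((g⁻¹ : GL n ℂ) : Matrix n n ℂ)ᵀ * toC Q *
        ((g⁻¹ : GL n ℂ) : Matrix n n ℂ))) by rw [← e1], smul_smul, inv_mul_cancel₀ c0, one_smul]
    obtain ⟨c0, hc'⟩ := inv hc
    obtain ⟨d0, hd'⟩ := inv hd
    rw [Matrix.transpose_mul, Matrix.transpose_mul, Matrix.transpose_mul]
    calc _ = ((h⁻¹ : GL n ℂ) : Matrix n n ℂ)ᵀ * (((g⁻¹ : GL n ℂ) : Matrix n n ℂ)ᵀ * ((h : Matrix n n ℂ)ᵀ *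
          ((g : Matrix n n ℂ)ᵀ * toC Q * (g : Matrix n n ℂ)) * (h : Matrix n n ℂ)) *
          ((g⁻¹ : GL n ℂ) : Matrix n n ℂ)) * ((h⁻¹ : GL n ℂ) : Matrix n n ℂ) := by simp only [mul_assoc]
      _ = (c * d * c⁻¹ * d⁻¹) • toC Q := by
          rw [hc, mul_smul_comm, smul_mul_assoc, hd, mul_smul_comm, mul_smul_comm, smul_mul_assoc, smul_mul_assoc, hc',
            mul_smul_comm, mul_smul_comm, mul_smul_comm, smul_mul_assoc, smul_mul_assoc, smul_mul_assoc, hd',
            smul_smul, smul_smul, smul_smul]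
      _ = toC Q := by
          have : c * d * c⁻¹ * d⁻¹ = 1 := by field_simp
          rw [this, one_smul]
  · have hee := he.idem
    have hge := hg.2.2 e he
    have hhe := hh.2.2 e he
    have inv : ∀ {g : GL n ℂ}, (g : Matrix n n ℂ) * e = e * (g : Matrix n n ℂ) →
        ((g⁻¹ : GL n ℂ) : Matrix n n ℂ) * e = e * ((g⁻¹ : GL n ℂ) : Matrix n n ℂ) := by
      intro g hge
      have h1 := fac_inv43 (g := g) (T := e) (c := 1) one_ne_zero (by rw [hge, one_smul])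
      rwa [inv_one, one_smul] at h1
    have hgi := inv hge
    have hhi := inv hhe
    have hmul : ∀ X Y : Matrix n n ℂ, Y * e = e * Y → X * Y * e + (1 - e) = (X * e + (1 - e)) * (Y * e + (1 - e)) := by
      intro X Y hY
      have x1 : X * e * (Y * e) = X * Y * e := by
        rw [hY]
        calc X * e * (e * Y) = X * ((e * e) * Y) := by simp only [mul_assoc]
          _ = _ := by rw [hee, ← hY, mul_assoc]
      have x2 : X * e * (1 - e) = 0 := by
        rw [mul_assoc, mul_sub, mul_one, hee, sub_self, mul_zero]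
      have x3 : (1 - e) * (Y * e) = 0 := by
        rw [hY, ← mul_assoc, sub_mul, one_mul, hee, sub_self, zero_mul]
      have x4 : (1 - e) * (1 - e) = 1 - e := by
        rw [sub_mul, one_mul, mul_sub, mul_one, hee]
        abel
      rw [mul_add, add_mul, add_mul, x1, x2, x3, x4]
      abel
    rw [hmul _ _ hhi, hmul _ _ hgi, hmul _ _ hhe, Matrix.det_mul, Matrix.det_mul, Matrix.det_mul]
    have d1 : ((g : Matrix n n ℂ) * e + (1 - e)).det * (((g⁻¹ : GL n ℂ) : Matrix n n ℂ) * e + (1 - e)).det = 1 := by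
      rw [← Matrix.det_mul, ← hmul _ _ hgi, i1, one_mul]
      rw [add_sub_cancel, Matrix.det_one]
    have d2 : ((h : Matrix n n ℂ) * e + (1 - e)).det * (((h⁻¹ : GL n ℂ) : Matrix n n ℂ) * e + (1 - e)).det = 1 := by
      rw [← Matrix.det_mul, ← hmul _ _ hhi, i2, one_mul]
      rw [add_sub_cancel, Matrix.det_one]
    calc _ = (((g : Matrix n n ℂ) * e + (1 - e)).det * (((g⁻¹ : GL n ℂ) : Matrix n n ℂ) * e + (1 - e)).det) *
          (((h : Matrix n n ℂ) * e + (1 - e)).det * (((h⁻¹ : GL n ℂ) : Matrix n n ℂ) * e + (1 - e)).det) := by ring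
      _ = 1 := by rw [d1, d2, one_mul]

/-- the two tori in the groups -/
theorem IsGalN.torus43 (H : IsHW w Q S P) (G : IsGalN w Q S P Γ) {σ : ℂ ≃+* ℂ} {S' : Finset ℤ} {R : ℤ → Matrix n n ℂ}
    (hR : IsHTs w Q S P Γ σ S' R) {z : ℂ} (hz : z ≠ 0) :
    ∃ gS gR : GL n ℂ, gS ∈ MT S P ∧ (gS : Matrix n n ℂ) = ct43 S (fun p => (P p).map σ) z ∧
      ((gS⁻¹ : GL n ℂ) : Matrix n n ℂ) = ct43 S (fun p => (P p).map σ) z⁻¹ ∧
      (gR : Matrix n n ℂ) = ct43 S' R z ∧ ((gR⁻¹ : GL n ℂ) : Matrix n n ℂ) = ct43 S' R z⁻¹ ∧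
      InD Q S P ((gS * gR⁻¹ : GL n ℂ) : Matrix n n ℂ) := by
  obtain ⟨gS, s1, s2, s3⟩ := H.exists_ctσ43 σ hz
  refine ⟨gS, ⟨ct43 S' R z, ct43 S' R z⁻¹, hR.toIsHTw.dc43.ct_inv hz, ?_⟩, s1, s2, s3, rfl, rfl, ?_⟩
  · have h1 := hR.toIsHTw.dc43.ct_inv (inv_ne_zero hz)
    rwa [inv_inv] at h1
  · rw [Units.val_mul, s2]
    exact G.InD43 H hR hz

/-- **Block TC.** With the centre: the tensors fixed by a subgroup of finite index of `Γ` are fixed by the Mumford-Tate
group. -/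
theorem IsGalN.tate_le (H : IsHW w Q S P) (G : IsGalN w Q S P Γ) {a b : ℕ} {t : (Fin a ⊕ Fin b → n) → ℂ}
    (ht : IsTateTensor Γ a b t) (hE : ∀ g : GL n ℂ, InD Q S P (g : Matrix n n ℂ) →
      actF (slot a b (g : Matrix n n ℂ) ((g⁻¹ : GL n ℂ) : Matrix n n ℂ)) t = t) : MTfix S P a b t := by
  intro g hg
  refine H.MT_of_kill (fun σ => ?_) hg
  obtain ⟨S', R, hR⟩ := G.conj σ
  have e0 : (∑ p ∈ S, (p : ℂ) • P p).map σ = ∑ p ∈ S, (p : ℂ) • (P p).map σ := by
    rw [map_sumσ43]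
    refine Finset.sum_congr rfl fun p _ => ?_
    rw [map_smulσ, map_intCast]
  rw [e0]
  have hI : Idm S (fun p => (P p).map σ) := ⟨(H.dc43 σ).mul, (H.dc43 σ).sum⟩
  refine (hI.inv_iff a b t).1 fun z hz => ?_
  obtain ⟨gS, gR, s1, s2, s3, r1, r2, hd⟩ := G.torus43 H hR hz
  have h1 : actF (slot a b (gR : Matrix n n ℂ) ((gR⁻¹ : GL n ℂ) : Matrix n n ℂ)) t = t := by
    rw [r1, r2]
    exact hR.ht a b t ht z hz
  have h2 := hE _ hd
  have h3 : actF (slot a b (gS : Matrix n n ℂ) ((gS⁻¹ : GL n ℂ) : Matrix n n ℂ)) t = t := by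
    have h4 := act_mul43 (gS * gR⁻¹) gR t
    rw [inv_mul_cancel_right, h1, h2] at h4
    exact h4
  rw [s2, s3] at h3
  exact h3

/-- **Block TC**, converse. -/
theorem IsGalN.tate_ge (H : IsHW w Q S P) (G : IsGalN w Q S P Γ) (hA : IsAbel w Q S P Γ)
    (hD : ∀ g : GL n ℂ, InD Q S P (g : Matrix n n ℂ) → g ∈ MT S P) {a b : ℕ} {t : (Fin a ⊕ Fin b → n) → ℂ}
    (hm : MTfix S P a b t) : IsTateTensor Γ a b t := by
  refine hA a b t (fun σ S' R hR z hz => ?_) ?_
  · obtain ⟨gS, gR, s1, s2, s3, r1, r2, hd⟩ := G.torus43 H hR hz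
    have h1 : gR ∈ MT S P := by
      have h2 := (MT S P).mul_mem ((MT S P).inv_mem (hD _ hd)) s1
      have h3 : (gS * gR⁻¹)⁻¹ * gS = gR := by group
      rwa [h3] at h2
    have h2 := hm gR h1
    rw [r1, r2] at h2
    exact h2
  · obtain ⟨Γ₁, a1, a2, a3⟩ := G.semi'
    refine ⟨Γ₁, a1, a2, fun g hg h hh => ?_⟩
    have hS : ∀ g ∈ Γ₁, Sf43 Q S P g := by
      intro g hg
      exact ⟨fun T hT => a3 g hg T hT, G.sim g (a1 hg), fun e he => comm_of_semi43 H (a3 g hg) he.mem⟩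
    exact hm _ (hD _ (InD_comm43 H (hS g hg) (hS h hh)))

end MH
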