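import Pool.Agent.Helper43.GH.TC4
import Pool.Agent.Helper14.GH.HW7

/-!
Project GH (MP_b8862a_ag): the `ℓ`-adic data of the main theorem give the data of the block theorems.
-/

set_option linter.unusedSectionVars false
set_option linter.unusedVariables false

open Matrix

namespace MH

variable {n : Type*} [Fintype n] [DecidableEq n]
variable {w : ℤ} {Q : Matrix n n ℚ} {S : Finset ℤ} {P : ℤ → Matrix n n ℂ} {Γ : Subgroup (GL n ℂ)}

/-- what commutes with a subgroup of finite index has degree zero -/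
theorem IsHTw.com_R43 {S' : Finset ℤ} {R : ℤ → Matrix n n ℂ} (hR : IsHTw w Q S' Γ R) {Γ' : Subgroup (GL n ℂ)}
    (a1 : Γ' ≤ Γ) (a2 : Γ'.relIndex Γ ≠ 0) {T : Matrix n n ℂ}
    (a3 : ∀ g ∈ Γ', (g : Matrix n n ℂ) * T = T * (g : Matrix n n ℂ)) (p : ℤ) : T * R p = R p * T := by
  have D := hR.dc43
  refine D.comm ?_ p
  have h1 : IsTateTensor Γ 1 1 (t11 T) := by
    refine ⟨Γ', a1, a2, fun g hg => ?_⟩
    rw [slot11, a3 g hg, mul_assoc, ← Units.val_mul, mul_inv_cancel, Units.val_one, mul_one]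
  have h2 := hR.ht 1 1 _ h1 2 two_ne_zero
  rw [slot11] at h2
  have h3 : ct43 S' R 2 * T * ct43 S' R 2⁻¹ = T := t11_inj h2
  have h4 : ct43 S' R 2⁻¹ * ct43 S' R 2 = 1 := by
    have := D.ct_inv (inv_ne_zero (two_ne_zero (α := ℂ)))
    rwa [inv_inv] at this
  calc ct43 S' R 2 * T = ct43 S' R 2 * T * (ct43 S' R 2⁻¹ * ct43 S' R 2) := by rw [h4, mul_one]
    _ = ct43 S' R 2 * T * ct43 S' R 2⁻¹ * ct43 S' R 2 := by rw [← mul_assoc]
    _ = _ := by rw [h3]

/-- the commutants of the subgroups of finite index -/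
theorem IsGalN.cent (H : IsHW w Q S P) (G : IsGalN w Q S P Γ) (hT : IsTateN S P Γ) (Γ' : Subgroup (GL n ℂ))
    (a1 : Γ' ≤ Γ) (a2 : Γ'.relIndex Γ ≠ 0) (T : Matrix n n ℂ)
    (a3 : ∀ g ∈ Γ', (g : Matrix n n ℂ) * T = T * (g : Matrix n n ℂ)) : T ∈ EC P := by
  rcases eq_or_ne T 0 with hT0 | hT0
  · rw [hT0]
    exact (EC P).zero_mem
  have hSI : SI S P T := hT.semi Γ' a1 a2 T fun g hg => ⟨1, by rw [a3 g hg, one_smul]⟩
  refine H.descent fun σ => ?_
  obtain ⟨S', R, hR⟩ := G.conj σ
  obtain ⟨m, h1, h2⟩ := G.shift43 H hR hSI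
  have h3 := hR.toIsHTw.com_R43 a1 a2 a3
  have hm : m = 0 := by
    by_contra hm
    apply hT0
    have h4 : T = (∑ p ∈ S', R p) * T := by rw [hR.sum, one_mul]
    rw [h4, Finset.sum_mul]
    refine Finset.sum_eq_zero fun q _ => ?_
    have h5 : R q * T = R (q + m) * T := by rw [← h3 q, h1 q]
    calc R q * T = R q * R q * T := by rw [hR.mul, if_pos rfl]
      _ = R q * (R q * T) := by rw [mul_assoc]
      _ = R q * R (q + m) * T := by rw [h5, mul_assoc]
      _ = 0 := by rw [hR.mul, if_neg (by omega), zero_mul]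
  subst hm
  have h4 : ∀ q, T * (P q).map σ = (P q).map σ * T := fun q => by have := h2 q; rwa [add_zero] at this
  unfold hw
  rw [map_sumσ43, Finset.mul_sum, Finset.sum_mul]
  refine Finset.sum_congr rfl fun p _ => ?_
  rw [map_smulσ, mul_smul_comm, smul_mul_assoc, h4]

/-- the rank of a conjugate of an idempotent -/
theorem rank_mapσ43 {e : Matrix n n ℂ} (he : e * e = e) (σ : ℂ ≃+* ℂ) : (e.map σ).rank = e.rank := by
  have h1 : (e.map σ) * (e.map σ) = e.map σ := by rw [← map_mulσ, he]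
  have h2 := trace_eq_rank h1
  have h3 : (e.map σ).trace = σ e.trace := by
    unfold Matrix.trace
    rw [map_sum]
    rfl
  rw [h3, trace_eq_rank he, map_natCast] at h2
  exact_mod_cast h2.symm

theorem eq_zero_of_rank43 {e : Matrix n n ℂ} (h : e.rank = 0) : e = 0 := by
  rw [Matrix.rank, Submodule.finrank_eq_zero, LinearMap.range_eq_bot] at h
  apply Matrix.toLin'.injective
  rw [map_zero]
  exact h

/-- the condition on a block for the Hodge-Tate decomposition with the numbers of a conjugate -/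
theorem IsHTs.domR43 (H : IsHW w Q S P) {σ : ℂ ≃+* ℂ} {S' : Finset ℤ} {R : ℤ → Matrix n n ℂ}
    (hR : IsHTs w Q S P Γ σ S' R) (hdom : ∀ e, IsBlk P e → DomB w Q S P e) {f : Matrix n n ℂ} (hf : IsBlk P f) :
    DomR w Q P S' R f := by
  classical
  obtain ⟨f', hf'⟩ : ∃ f', f' = f.map σ.symm := ⟨_, rfl⟩
  have hB : IsBlk P f' := by rw [hf']; exact hf.aut σ.symm
  have hff : f = f'.map σ := by rw [hf', map_symmσ]
  have r0 : f.rank = f'.rank := by rw [hff]; exact rank_mapσ43 hB.idem σ
  have hcP : ∀ p, f' * P p = P p * f' := fun p => by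
    have h1 := EC_Pσ43 hB.mem (RingEquiv.refl ℂ) p
    have h2 : (P p).map (RingEquiv.refl ℂ) = P p := by ext i j; rfl
    rwa [h2] at h1
  have r1 : ∀ p, (f * R p).rank = (f' * P p).rank := by
    intro p
    rw [hR.rank f hf p, hff, ← map_mulσ]
    refine rank_mapσ43 ?_ σ
    calc f' * P p * (f' * P p) = f' * (P p * f') * P p := by simp only [mul_assoc]
      _ = f' * f' * (P p * P p) := by rw [← hcP]; simp only [mul_assoc]
      _ = _ := by rw [hB.idem, H.mul, if_pos rfl]
  rcases hdom f' hB with ⟨p, hp⟩ | ⟨m, hw2, hO, hM⟩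
  · left
    refine ⟨p, ?_⟩
    rw [r0, r1]
    exact hp
  · right
    refine ⟨m, hw2, ?_, ?_⟩
    · rw [hff]
      exact hO.aut σ
    · rcases hM with hM | hM
      · left
        have h1 : ∀ q, q ≠ m → f * R q = 0 := by
          intro q hq
          apply eq_zero_of_rank43
          rw [r1, ← hM, mul_assoc, H.mul, if_neg (Ne.symm hq), mul_zero, Matrix.rank_zero]
        have h2 : f = ∑ q ∈ S', f * R q := by rw [← Finset.mul_sum, hR.sum, mul_one]
        conv_rhs => rw [h2]
        by_cases hm : m ∈ S'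
        · rw [Finset.sum_eq_single m (fun q _ hq => h1 q hq) fun h => absurd hm h]
        · rw [hR.supp m hm, mul_zero]
          exact (Finset.sum_eq_zero fun q hq => h1 q fun h => hm (h ▸ hq)).symm
      · right
        have h1 : sB m S' R f = sB m S P f' := by
          unfold sB
          have e1 : ∑ p ∈ S'.filter (fun p => m < p), (f * R p).rank =
              ∑ p ∈ (S ∪ S').filter (fun p => m < p), (f * R p).rank := by
            refine Finset.sum_subset (Finset.filter_subset_filter _ Finset.subset_union_right) fun p hp hp' => ?_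
            have : p ∉ S' := fun h => hp' (Finset.mem_filter.2 ⟨h, (Finset.mem_filter.1 hp).2⟩)
            rw [hR.supp p this, mul_zero, Matrix.rank_zero]
          have e2 : ∑ p ∈ S.filter (fun p => m < p), (f' * P p).rank =
              ∑ p ∈ (S ∪ S').filter (fun p => m < p), (f' * P p).rank := by
            refine Finset.sum_subset (Finset.filter_subset_filter _ Finset.subset_union_left) fun p hp hp' => ?_
            have : p ∉ S := fun h => hp' (Finset.mem_filter.2 ⟨h, (Finset.mem_filter.1 hp).2⟩)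
            rw [H.supp p this, mul_zero, Matrix.rank_zero]
          rw [e1, e2]
          exact Finset.sum_congr rfl fun p _ => r1 p
        rw [h1, r1]
        exact hM

/-- the data of the block theorems -/
theorem IsGalN.toW (H : IsHW w Q S P) (G : IsGalN w Q S P Γ) (hT : IsTateN S P Γ)
    (hdom : ∀ e, IsBlk P e → DomB w Q S P e)
    (hgcd : ∀ e, IsBlk P e → e.rank ≠ 1 → ∃ σ : ℂ ≃+* ℂ, ∀ d : ℕ, (∀ p, d ∣ (e * (P p).map σ).rank) → d = 1) :
    IsGalW w Q S P Γ where
  sim := G.sim
  ss := hT.ss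
  comm := G.comm H
  cent := G.cent H hT
  semi := hT.semi
  touch e he hr := by
    obtain ⟨σ, hσ⟩ := hgcd e he hr
    obtain ⟨S', R, hR⟩ := G.conj σ
    exact ⟨S', R, hR.toIsHTw, fun d hd => hσ d fun p => by rw [← hR.rank e he p]; exact hd p,
      fun f hf => hR.domR43 H hdom hf⟩

end MH
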