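import Pool.Agent.Helper14.GH.HW6
import Pool.Agent.Helper48.GH.GalDefs

/-!
Project GH (MP_b8862a_ag): the `ℓ`-adic data with the centre. Definitions.
-/

set_option linter.unusedSectionVars false

open Matrix

namespace MH

variable {n : Type*} [Fintype n] [DecidableEq n]

/-- A Hodge-Tate decomposition whose numbers on all the blocks are those of the conjugate by `σ` of the Hodge
decomposition. -/
structure IsHTs (w : ℤ) (Q : Matrix n n ℚ) (S : Finset ℤ) (P : ℤ → Matrix n n ℂ) (Γ : Subgroup (GL n ℂ))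
    (σ : ℂ ≃+* ℂ) (S' : Finset ℤ) (R : ℤ → Matrix n n ℂ) : Prop extends IsHTw w Q S' Γ R where
  rank : ∀ e, IsBlk P e → ∀ p, (e * R p).rank = (e * (P p).map σ).rank

/-- The `ℓ`-adic data: `Γ` consists of similitudes of `Q`; a subgroup of finite index preserves all the lines of matrices
that are stable under the Mumford-Tate group; and for every automorphism `σ` there is a Hodge-Tate decomposition with the
numbers of the conjugate by `σ` of the Hodge decomposition. -/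
structure IsGalN (w : ℤ) (Q : Matrix n n ℚ) (S : Finset ℤ) (P : ℤ → Matrix n n ℂ) (Γ : Subgroup (GL n ℂ)) :
    Prop where
  sim : ∀ g ∈ Γ, ∃ c : ℂ, (g : Matrix n n ℂ)ᵀ * toC Q * (g : Matrix n n ℂ) = c • toC Q
  semi' : ∃ Γ' : Subgroup (GL n ℂ), Γ' ≤ Γ ∧ Γ'.relIndex Γ ≠ 0 ∧ ∀ g ∈ Γ', ∀ T : Matrix n n ℂ, SI S P T →
    ∃ c : ℂ, (g : Matrix n n ℂ) * T = c • (T * (g : Matrix n n ℂ))
  conj : ∀ σ : ℂ ≃+* ℂ, ∃ (S' : Finset ℤ) (R : ℤ → Matrix n n ℂ), IsHTs w Q S P Γ σ S' R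

/-- A tensor of weight zero for all the Hodge-Tate decompositions with the numbers of the conjugates of the Hodge
decomposition, which is fixed by the commutators of a subgroup of finite index, is fixed by a subgroup of finite index (a
property of Galois groups: Serre, Abelian `ℓ`-adic representations). -/
def IsAbel (w : ℤ) (Q : Matrix n n ℚ) (S : Finset ℤ) (P : ℤ → Matrix n n ℂ) (Γ : Subgroup (GL n ℂ)) : Prop :=
  ∀ a b t, (∀ σ S' R, IsHTs w Q S P Γ σ S' R → ∀ z : ℂ, z ≠ 0 →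
      actF (slot a b (∑ p ∈ S', z ^ p • R p) (∑ p ∈ S', z⁻¹ ^ p • R p)) t = t) →
    (∃ Γ' : Subgroup (GL n ℂ), Γ' ≤ Γ ∧ Γ'.relIndex Γ ≠ 0 ∧ ∀ g ∈ Γ', ∀ h ∈ Γ',
      actF (slot a b ((g * h * g⁻¹ * h⁻¹ : GL n ℂ) : Matrix n n ℂ)
        (((g * h * g⁻¹ * h⁻¹)⁻¹ : GL n ℂ) : Matrix n n ℂ)) t = t) → IsTateTensor Γ a b t

/-- The subgroups of finite index of `Γ` are semisimple, and what spans a line stable under one of them spans a line stable
under the Mumford-Tate group. -/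
structure IsTateN (S : Finset ℤ) (P : ℤ → Matrix n n ℂ) (Γ : Subgroup (GL n ℂ)) : Prop where
  ss : ∀ Γ' : Subgroup (GL n ℂ), Γ' ≤ Γ → Γ'.relIndex Γ ≠ 0 → ∀ W : Submodule ℂ (n → ℂ),
    (∀ g ∈ Γ', ∀ w ∈ W, (g : Matrix n n ℂ) *ᵥ w ∈ W) →
    ∃ W' : Submodule ℂ (n → ℂ), (∀ g ∈ Γ', ∀ w ∈ W', (g : Matrix n n ℂ) *ᵥ w ∈ W') ∧ IsCompl W W'
  semi : ∀ Γ' : Subgroup (GL n ℂ), Γ' ≤ Γ → Γ'.relIndex Γ ≠ 0 → ∀ T : Matrix n n ℂ,
    (∀ g ∈ Γ', ∃ c : ℂ, (g : Matrix n n ℂ) * T = c • (T * (g : Matrix n n ℂ))) → SI S P T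

end MH
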